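import Mathlib

/-!
Coefficient bounds for the logarithm of a zero free quotient of products (Borel-Caratheodory).
-/

set_option autoImplicit false

namespace Pool.Agent.TH298.MI

open Metric Set

variable {m : ℕ}

/-- factor is in the slit plane -/
theorem slit {c w : ℂ} {R : ℝ} (hc : ‖c‖ * R ≤ 1) (hw : ‖w‖ < R) :
    1 - c * w ∈ Complex.slitPlane := by
  have h : ‖c * w‖ < 1 := by
    rw [norm_mul]
    rcases (norm_nonneg c).eq_or_lt with h0 | h0
    · rw [← h0]; simp
    · exact lt_of_lt_of_le (mul_lt_mul_of_pos_left hw h0) hc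
  left
  have h1 : (c * w).re < 1 := lt_of_le_of_lt (Complex.re_le_norm _) h
  simp only [Complex.sub_re, Complex.one_re]
  linarith

theorem ne_zero_half {c w : ℂ} {R : ℝ} (hc : ‖c‖ * R ≤ 1 / 2) (hw : ‖w‖ ≤ R) :
    1 - c * w ≠ 0 := by
  intro h
  have h1 : ‖c * w‖ = 1 := by
    have : c * w = 1 := (sub_eq_zero.1 h).symm
    rw [this, norm_one]
  rw [norm_mul] at h1
  have h2 : ‖c‖ * ‖w‖ ≤ ‖c‖ * R := mul_le_mul_of_nonneg_left hw (norm_nonneg _)
  linarith

/-- maximum principle for the quotient -/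
theorem quot_le {c d : Fin m → ℂ} {R B : ℝ} (hR : 0 < R)
    (hd : ∀ j, ‖d j‖ * R ≤ 1 / 2)
    (hB : ∀ w : ℂ, ‖w‖ = R → ‖∏ k, (1 - c k * w)‖ ≤ B * ‖∏ j, (1 - d j * w)‖)
    {w : ℂ} (hw : ‖w‖ ≤ R) : ‖∏ k, (1 - c k * w)‖ ≤ B * ‖∏ j, (1 - d j * w)‖ := by
  have hne : ∀ w : ℂ, ‖w‖ ≤ R → ∏ j, (1 - d j * w) ≠ 0 := fun w hw =>
    Finset.prod_ne_zero_iff.2 fun j _ => ne_zero_half (hd j) hw
  have hdiff : DiffContOnCl ℂ (fun w : ℂ => (∏ k, (1 - c k * w)) / ∏ j, (1 - d j * w))
      (ball 0 R) := by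
    have hcl : closure (ball (0:ℂ) R) = closedBall 0 R := closure_ball 0 hR.ne'
    refine DifferentiableOn.diffContOnCl ?_
    rw [hcl]
    intro x hx
    have hx' : ‖x‖ ≤ R := by simpa using hx
    refine DifferentiableAt.differentiableWithinAt ?_
    refine DifferentiableAt.div ?_ ?_ (hne x hx')
    · fun_prop
    · fun_prop
  have h := Complex.norm_le_of_forall_mem_frontier_norm_le (isBounded_ball (x := (0:ℂ)) (r := R))
    hdiff (C := B) (fun z hz => by
      rw [frontier_ball (0:ℂ) hR.ne'] at hz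
      have hz' : ‖z‖ = R := by simpa using hz
      rw [norm_div, div_le_iff₀ (norm_pos_iff.2 (hne z hz'.le))]
      exact hB z hz') (z := w) (by
        rw [closure_ball (0:ℂ) hR.ne']
        simpa using hw)
  rwa [norm_div, div_le_iff₀ (norm_pos_iff.2 (hne w hw))] at h

theorem one_le_B {c d : Fin m → ℂ} {R B : ℝ} (hR : 0 < R)
    (hd : ∀ j, ‖d j‖ * R ≤ 1 / 2)
    (hB : ∀ w : ℂ, ‖w‖ = R → ‖∏ k, (1 - c k * w)‖ ≤ B * ‖∏ j, (1 - d j * w)‖) : 1 ≤ B := by
  have h := quot_le hR hd hB (w := 0) (by simpa using hR.le)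
  simpa using h

/-- coefficient bounds -/
theorem coef {c d : Fin m → ℂ} {R A : ℝ} (hR : 0 < R) (hA : 0 < A)
    (hc : ∀ k, ‖c k‖ * R ≤ 1) (hd : ∀ j, ‖d j‖ * R ≤ 1 / 2)
    (hB : ∀ w : ℂ, ‖w‖ = R → ‖∏ k, (1 - c k * w)‖ ≤ Real.exp A * ‖∏ j, (1 - d j * w)‖) :
    ‖∑ k, c k - ∑ j, d j‖ ≤ 24 * A / R ∧
      ‖∑ k, c k ^ 2 - ∑ j, d j ^ 2‖ ≤ 48 * A / R ^ 2 := by
  have hd1 : ∀ j, ‖d j‖ * R ≤ 1 := fun j => (hd j).trans (by norm_num)
  set f : ℂ → ℂ := fun w => ∑ k, Complex.log (1 - c k * w) - ∑ j, Complex.log (1 - d j * w)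
    with hf
  set D : ℂ → ℂ := fun w => ∑ k, (-c k) / (1 - c k * w) - ∑ j, (-d j) / (1 - d j * w) with hD
  have hderiv : ∀ w ∈ ball (0:ℂ) R, HasDerivAt f (D w) w := by
    intro w hw
    have hw' : ‖w‖ < R := by simpa using hw
    have h1 : ∀ e : ℂ, ‖e‖ * R ≤ 1 →
        HasDerivAt (fun w : ℂ => Complex.log (1 - e * w)) ((-e) / (1 - e * w)) w := by
      intro e he
      have h2 : HasDerivAt (fun w : ℂ => 1 - e * w) (-e) w := by
        have := ((hasDerivAt_id w).const_mul e).const_sub 1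
        simpa using this
      exact h2.clog (slit he hw')
    have ha : HasDerivAt (fun w : ℂ => ∑ k, Complex.log (1 - c k * w))
        (∑ k, (-c k) / (1 - c k * w)) w :=
      HasDerivAt.fun_sum fun k _ => h1 (c k) (hc k)
    have hb : HasDerivAt (fun w : ℂ => ∑ j, Complex.log (1 - d j * w))
        (∑ j, (-d j) / (1 - d j * w)) w :=
      HasDerivAt.fun_sum fun j _ => h1 (d j) (hd1 j)
    exact ha.sub hb
  have hderiv2 : HasDerivAt D (-(∑ k, c k ^ 2 - ∑ j, d j ^ 2)) 0 := by
    have h1 : ∀ e : ℂ, HasDerivAt (fun w : ℂ => (-e) / (1 - e * w)) (-(e ^ 2)) 0 := by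
      intro e
      have h2 : HasDerivAt (fun w : ℂ => 1 - e * w) (-e) 0 := by
        have := ((hasDerivAt_id (0:ℂ)).const_mul e).const_sub 1
        simpa using this
      have h3 := (hasDerivAt_const (0:ℂ) (-e)).div h2 (by simp)
      refine h3.congr_deriv ?_
      simp
      ring
    have ha : HasDerivAt (fun w : ℂ => ∑ k, (-c k) / (1 - c k * w))
        (∑ k, -(c k ^ 2)) 0 :=
      HasDerivAt.fun_sum fun k _ => h1 (c k)
    have hb : HasDerivAt (fun w : ℂ => ∑ j, (-d j) / (1 - d j * w))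
        (∑ j, -(d j ^ 2)) 0 :=
      HasDerivAt.fun_sum fun j _ => h1 (d j)
    refine (ha.sub hb).congr_deriv ?_
    rw [Finset.sum_neg_distrib, Finset.sum_neg_distrib]
    ring
  have hexp : ∀ w ∈ ball (0:ℂ) R, Complex.exp (f w) =
      (∏ k, (1 - c k * w)) / ∏ j, (1 - d j * w) := by
    intro w hw
    have hw' : ‖w‖ < R := by simpa using hw
    rw [hf]
    simp only []
    rw [Complex.exp_sub, Complex.exp_sum, Complex.exp_sum]
    congr 1
    · exact Finset.prod_congr rfl fun k _ =>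
        Complex.exp_log (Complex.slitPlane_ne_zero (slit (hc k) hw'))
    · exact Finset.prod_congr rfl fun j _ =>
        Complex.exp_log (Complex.slitPlane_ne_zero (slit (hd1 j) hw'))
  have hre : MapsTo f (ball 0 R) {z | z.re ≤ A} := by
    intro w hw
    have hw' : ‖w‖ < R := by simpa using hw
    have h1 := quot_le hR hd hB hw'.le
    have hne : ∏ j, (1 - d j * w) ≠ 0 :=
      Finset.prod_ne_zero_iff.2 fun j _ => ne_zero_half (hd j) hw'.le
    have h2 : Real.exp (f w).re ≤ Real.exp A := by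
      rw [← Complex.norm_exp, hexp w hw, norm_div, div_le_iff₀ (norm_pos_iff.2 hne)]
      exact h1
    exact Real.exp_le_exp.1 h2
  have hf0 : f 0 = 0 := by simp [hf]
  have hdiff : DifferentiableOn ℂ f (ball 0 R) := fun w hw =>
    (hderiv w hw).differentiableAt.differentiableWithinAt
  have hbc : ∀ w : ℂ, ‖w‖ ≤ 3 * R / 4 → ‖f w‖ ≤ 6 * A := by
    intro w hw
    have hwb : w ∈ ball (0:ℂ) R := by
      simp only [mem_ball, dist_zero_right]; linarith
    have h := Complex.borelCaratheodory_zero hA hdiff hre hR hwb hf0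
    refine h.trans ?_
    rw [div_le_iff₀ (by linarith)]
    nlinarith [norm_nonneg w, mul_le_mul_of_nonneg_left hw hA.le]
  have hDb : ∀ w : ℂ, ‖w‖ ≤ R / 2 → ‖D w‖ ≤ 24 * A / R := by
    intro w hw
    have hwb : w ∈ ball (0:ℂ) R := by
      simp only [mem_ball, dist_zero_right]; linarith
    have hsub : closedBall w (R / 4) ⊆ ball (0:ℂ) R := by
      intro x hx
      simp only [mem_closedBall, dist_eq_norm] at hx
      simp only [mem_ball, dist_zero_right]
      have : ‖x‖ ≤ ‖x - w‖ + ‖w‖ := by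
        calc ‖x‖ = ‖(x - w) + w‖ := by ring_nf
          _ ≤ _ := norm_add_le _ _
      linarith
    have h1 : DiffContOnCl ℂ f (ball w (R / 4)) := by
      refine DifferentiableOn.diffContOnCl ?_
      rw [closure_ball w (by positivity)]
      exact hdiff.mono hsub
    have h2 := Complex.norm_deriv_le_of_forall_mem_sphere_norm_le (c := w) (R := R / 4)
      (C := 6 * A) (by positivity) h1 (fun z hz => by
        refine hbc z ?_
        simp only [mem_sphere, dist_eq_norm] at hz
        have : ‖z‖ ≤ ‖z - w‖ + ‖w‖ := by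
          calc ‖z‖ = ‖(z - w) + w‖ := by ring_nf
            _ ≤ _ := norm_add_le _ _
        linarith)
    rw [(hderiv w hwb).deriv] at h2
    refine h2.trans (le_of_eq ?_)
    field_simp
    ring
  constructor
  · have h := hDb 0 (by rw [norm_zero]; positivity)
    have e : D 0 = -(∑ k, c k - ∑ j, d j) := by
      simp only [hD, mul_zero, sub_zero, div_one, Finset.sum_neg_distrib]
      ring
    rw [e, norm_neg] at h
    exact h
  · have h1 : DiffContOnCl ℂ D (ball 0 (R / 2)) := by
      refine DifferentiableOn.diffContOnCl ?_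
      rw [closure_ball (0:ℂ) (by positivity)]
      intro x hx
      have hx' : ‖x‖ < R := by
        have : ‖x‖ ≤ R / 2 := by simpa using hx
        linarith
      refine DifferentiableAt.differentiableWithinAt ?_
      refine DifferentiableAt.sub ?_ ?_
      · refine DifferentiableAt.fun_sum fun k _ => ?_
        exact (differentiableAt_const _).div (by fun_prop)
          (Complex.slitPlane_ne_zero (slit (hc k) hx'))
      · refine DifferentiableAt.fun_sum fun j _ => ?_
        exact (differentiableAt_const _).div (by fun_prop)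
          (Complex.slitPlane_ne_zero (slit (hd1 j) hx'))
    have h2 := Complex.norm_deriv_le_of_forall_mem_sphere_norm_le (c := 0) (R := R / 2)
      (C := 24 * A / R) (by positivity) h1 (fun z hz => by
        refine hDb z ?_
        simp only [mem_sphere, dist_zero_right] at hz
        exact hz.le)
    rw [hderiv2.deriv, norm_neg] at h2
    refine h2.trans (le_of_eq ?_)
    field_simp
    ring

end Pool.Agent.TH298.MI
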