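import Pool.Agent.TH298.MI.Core2

/-!
The mean reciprocal distance inequality, with other zeros allowed in a sector.
-/

set_option autoImplicit false

namespace Pool.Agent.TH298.MI

open Metric Set

variable {m : ℕ}

/-- version of `core2` with near zeros in a sector; `near j` marks them -/
theorem core3 {a : ℂ} (ha : ‖a‖ < 1) {u v : Fin m → ℂ} {δ : ℝ} (hδ : 0 < δ)
    (hm : 1 ≤ m)
    (hG : ∀ w : ℂ, ∏ k, (1 - u k * w) = ∏ j, (1 - v j * w) -
      w * ∑ j, v j * ∏ i ∈ Finset.univ.erase j, (1 - v i * w))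
    (h1 : ∑ k, u k = 2 * ∑ j, v j)
    (h2 : ∑ k, u k ^ 2 = 3 * ∑ j, v j ^ 2 + (∑ j, v j) ^ 2)
    (hv : ∀ j, ‖v j‖ ≤ 1 / δ ∨ |(a * v j).im| ≤ (a * v j).re / 2)
    (hp : ∀ k, 0 ≤ phi a (u k))
    (hq : ∀ k, ‖a‖ ^ 2 * ‖u k‖ ^ 2 - (‖u k‖ - 1) ^ 2 ≤ 2 * phi a (u k))
    (hS : ∑ k, ‖u k‖ < m) {A C0 : ℝ}
    (hA : A = Real.log ((1 + m) * ∏ j, (1 + (if ‖v j‖ ≤ 1 / δ then 0 else ‖v j‖ * δ / 2))))
    (hC0 : C0 = (2 + 96 / δ) / (1 - ‖a‖) + 48 / δ) :
    (a * ∑ j, v j).re ≤ ‖a‖ * (C0 * A) ∧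
    ‖a‖ ^ 2 * m / 4 ≤ 8 * ((2 * ‖a‖ * (C0 * A) + 1) / (1 - ‖a‖)) * ‖a‖ * (C0 * A) +
      ‖a‖ ^ 2 * (72 * A * ((2 * ‖a‖ * (C0 * A) + 1) / (1 - ‖a‖) + 2 / δ) ^ 2 +
        4 * (C0 * A) ^ 2 / 3) := by
  set α : ℝ := ‖a‖ with hα
  have hα0 : 0 ≤ α := norm_nonneg a
  have hα1 : 0 < 1 - α := by linarith
  have hm' : (1 : ℝ) ≤ m := by exact_mod_cast hm
  set ν : Fin m → ℝ := fun j => if ‖v j‖ ≤ 1 / δ then 0 else ‖v j‖ * δ / 2 with hν
  have hν0 : ∀ j, 0 ≤ ν j := by
    intro j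
    simp only [hν]
    split_ifs
    · exact le_rfl
    · positivity
  have hνp : 1 ≤ ∏ j, (1 + ν j) := by
    have : ∏ _j : Fin m, (1 : ℝ) ≤ ∏ j, (1 + ν j) :=
      Finset.prod_le_prod (fun _ _ => zero_le_one) (fun j _ => by linarith [hν0 j])
    simpa using this
  have hbig2 : 2 ≤ (1 + m) * ∏ j, (1 + ν j) := by nlinarith
  have hApos : 0 < A := by rw [hA]; exact Real.log_pos (by linarith)
  have hexpA : Real.exp A = (1 + m) * ∏ j, (1 + ν j) := by
    rw [hA]; exact Real.exp_log (by linarith)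
  set V : ℂ := ∑ j, v j with hV
  -- far and near parts of v
  set d : Fin m → ℂ := fun j => if ‖v j‖ ≤ 1 / δ then v j else 0 with hd
  set e : Fin m → ℂ := fun j => if ‖v j‖ ≤ 1 / δ then 0 else v j with he
  have hde : ∀ j, v j = d j + e j := by
    intro j
    simp only [hd, he]
    split_ifs <;> simp
  have hdδ : ∀ j, ‖d j‖ ≤ 1 / δ := by
    intro j
    simp only [hd]
    split_ifs with h
    · exact h
    · simp; positivity
  have heR : ∀ j, ‖e j‖ * (δ / 2) = ν j := by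
    intro j
    simp only [he, hν]
    split_ifs with h
    · simp
    · ring
  have hde2 : ∀ j, v j ^ 2 = d j ^ 2 + e j ^ 2 := by
    intro j
    simp only [hd, he]
    split_ifs <;> simp
  have hprodde : ∀ (s : Finset (Fin m)) (w : ℂ), ∏ j ∈ s, (1 - v j * w) =
      (∏ j ∈ s, (1 - d j * w)) * ∏ j ∈ s, (1 - e j * w) := by
    intro s w
    rw [← Finset.prod_mul_distrib]
    refine Finset.prod_congr rfl fun j _ => ?_
    simp only [hd, he]
    split_ifs <;> simp
  set D : ℂ := ∑ j, d j with hD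
  set E : ℂ := ∑ j, e j with hE
  have hVDE : V = D + E := by
    rw [hV, hD, hE, ← Finset.sum_add_distrib]
    exact Finset.sum_congr rfl fun j _ => hde j
  -- the sector
  have hsec : ∀ j, |(a * e j).im| ≤ (a * e j).re / 2 := by
    intro j
    simp only [he]
    split_ifs with h
    · simp
    · exact (hv j).resolve_left h
  have hEsec : |(a * E).im| ≤ (a * E).re / 2 := by
    have e1 : (a * E).im = ∑ j, (a * e j).im := by rw [hE, Finset.mul_sum, Complex.im_sum]
    have e2 : (a * E).re = ∑ j, (a * e j).re := by rw [hE, Finset.mul_sum, Complex.re_sum]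
    rw [e1, e2, Finset.sum_div]
    exact (Finset.abs_sum_le_sum_abs _ _).trans (Finset.sum_le_sum fun j _ => hsec j)
  have hEre : 0 ≤ (a * E).re := by
    have := (abs_nonneg _).trans hEsec
    linarith
  have hE2 : 0 ≤ (a ^ 2 * ∑ j, e j ^ 2).re := by
    rw [Finset.mul_sum, Complex.re_sum]
    refine Finset.sum_nonneg fun j _ => ?_
    have e1 : a ^ 2 * e j ^ 2 = (a * e j) * (a * e j) := by ring
    rw [e1, Complex.mul_re]
    have h3 := hsec j
    have h4 := abs_nonneg (a * e j).im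
    have h5 : (a * e j).im * (a * e j).im = |(a * e j).im| * |(a * e j).im| := by
      rw [abs_mul_abs_self]
    rw [h5]
    nlinarith
  -- bound of the quotient on small circles
  have hGb : ∀ R : ℝ, 0 < R → R ≤ δ / 2 → ∀ w : ℂ, ‖w‖ = R →
      ‖∏ k, (1 - u k * w)‖ ≤ Real.exp A * ‖∏ j, (1 - d j * w)‖ := by
    intro R hR hRδ w hw
    have hdR : ∀ j, ‖d j‖ * R ≤ 1 / 2 := by
      intro j
      calc ‖d j‖ * R ≤ 1 / δ * (δ / 2) :=
            mul_le_mul (hdδ j) hRδ hR.le (by positivity)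
        _ = 1 / 2 := by field_simp
    have hne : ∀ j, 1 - d j * w ≠ 0 := fun j => ne_zero_half (hdR j) hw.le
    have heb : ∀ j, ‖e j * w‖ ≤ ν j := by
      intro j
      rw [norm_mul, hw, ← heR j]
      exact mul_le_mul_of_nonneg_left hRδ (norm_nonneg _)
    have heb1 : ∀ j, ‖1 - e j * w‖ ≤ 1 + ν j := by
      intro j
      refine (norm_sub_le _ _).trans ?_
      rw [norm_one]
      linarith [heb j]
    -- term by term
    have hterm : ∀ j, ‖w * (v j * ∏ i ∈ Finset.univ.erase j, (1 - v i * w))‖ ≤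
        ‖∏ j, (1 - d j * w)‖ * ∏ j, (1 + ν j) := by
      intro j
      rw [hprodde, ← Finset.mul_prod_erase Finset.univ (fun j => 1 - d j * w)
        (Finset.mem_univ j), ← Finset.mul_prod_erase Finset.univ (fun j => 1 + ν j)
        (Finset.mem_univ j), norm_mul, norm_mul, norm_mul, norm_mul]
      have e1 : ‖∏ i ∈ Finset.univ.erase j, (1 - e i * w)‖ ≤
          ∏ i ∈ Finset.univ.erase j, (1 + ν i) := by
        rw [norm_prod]
        exact Finset.prod_le_prod (fun _ _ => norm_nonneg _) fun i _ => heb1 i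
      have e2 : ‖w‖ * ‖v j‖ ≤ ‖1 - d j * w‖ * (1 + ν j) := by
        have e3 : ‖v j * w‖ = ‖w‖ * ‖v j‖ := by rw [norm_mul, mul_comm]
        rw [← e3]
        by_cases h : ‖v j‖ ≤ 1 / δ
        · have hdj : d j = v j := by simp only [hd]; rw [if_pos h]
          have e4 : ‖v j * w‖ ≤ 1 / 2 := by
            rw [norm_mul, hw, ← hdj]; exact hdR j
          have e5 : 1 / 2 ≤ ‖1 - d j * w‖ := by
            rw [hdj]
            have := norm_sub_norm_le (1 : ℂ) (v j * w)
            rw [norm_one] at this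
            linarith
          have e6 := hν0 j
          nlinarith
        · have hdj : d j = 0 := by simp only [hd]; rw [if_neg h]
          have hej : e j = v j := by simp only [he]; rw [if_neg h]
          rw [hdj, zero_mul, sub_zero, norm_one, one_mul, ← hej]
          linarith [heb j]
      have e7 : 0 ≤ ‖∏ i ∈ Finset.univ.erase j, (1 - d i * w)‖ := norm_nonneg _
      have e8 : 0 ≤ ∏ i ∈ Finset.univ.erase j, (1 + ν i) :=
        Finset.prod_nonneg fun i _ => by linarith [hν0 i]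
      calc ‖w‖ * (‖v j‖ * (‖∏ i ∈ Finset.univ.erase j, (1 - d i * w)‖ *
            ‖∏ i ∈ Finset.univ.erase j, (1 - e i * w)‖)) =
            (‖w‖ * ‖v j‖) * (‖∏ i ∈ Finset.univ.erase j, (1 - d i * w)‖ *
            ‖∏ i ∈ Finset.univ.erase j, (1 - e i * w)‖) := by ring
        _ ≤ (‖1 - d j * w‖ * (1 + ν j)) * (‖∏ i ∈ Finset.univ.erase j, (1 - d i * w)‖ *
            ∏ i ∈ Finset.univ.erase j, (1 + ν i)) := by
          refine mul_le_mul e2 (mul_le_mul_of_nonneg_left e1 e7) (by positivity) ?_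
          exact mul_nonneg (norm_nonneg _) (by linarith [hν0 j])
        _ = _ := by ring
    have hfirst : ‖∏ j, (1 - v j * w)‖ ≤ ‖∏ j, (1 - d j * w)‖ * ∏ j, (1 + ν j) := by
      rw [hprodde, norm_mul]
      refine mul_le_mul_of_nonneg_left ?_ (norm_nonneg _)
      rw [norm_prod]
      exact Finset.prod_le_prod (fun _ _ => norm_nonneg _) fun i _ => heb1 i
    rw [hG w, hexpA]
    refine (norm_sub_le _ _).trans ?_
    have hs : ‖w * ∑ j, v j * ∏ i ∈ Finset.univ.erase j, (1 - v i * w)‖ ≤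
        m * (‖∏ j, (1 - d j * w)‖ * ∏ j, (1 + ν j)) := by
      rw [Finset.mul_sum]
      refine (norm_sum_le _ _).trans ?_
      refine (Finset.sum_le_sum fun j _ => hterm j).trans (le_of_eq ?_)
      simp
    calc _ ≤ ‖∏ j, (1 - d j * w)‖ * ∏ j, (1 + ν j) +
          m * (‖∏ j, (1 - d j * w)‖ * ∏ j, (1 + ν j)) := add_le_add hfirst hs
      _ = _ := by ring
  -- the total defect
  set Φ : ℝ := ∑ k, phi a (u k) with hΦ
  have hΦe : Φ = ∑ k, ‖u k‖ + 2 * (a * V).re - m := by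
    rw [hΦ]
    unfold phi
    rw [Finset.sum_sub_distrib, Finset.sum_add_distrib]
    have : ∑ k, (a * u k).re = 2 * (a * V).re := by
      rw [← Complex.re_sum, ← Finset.mul_sum, h1]
      have : a * (2 * V) = (2 : ℝ) * (a * V) := by push_cast; ring
      rw [this, Complex.re_ofReal_mul]
    rw [this]
    simp
  have hΦV : Φ < 2 * (a * V).re := by rw [hΦe]; linarith
  -- first circle
  set R : ℝ := δ / 2 with hR
  have hRpos : 0 < R := by positivity
  have hvR : ∀ j, ‖d j‖ * R ≤ 1 / 2 := by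
    intro j
    calc ‖d j‖ * R ≤ 1 / δ * R := mul_le_mul_of_nonneg_right (hdδ j) hRpos.le
      _ = 1 / 2 := by rw [hR]; field_simp
  -- reflected coefficients
  set y : Fin m → ℝ := fun k => ‖u k‖ * R with hy
  set c : Fin m → ℂ := fun k => if 1 < y k then (((y k) ^ 2)⁻¹ : ℝ) * u k else u k with hc
  have hcR : ∀ k, ‖c k‖ * R ≤ 1 := by
    intro k
    simp only [hc]
    split_ifs with h
    · rw [norm_mul, Complex.norm_real, Real.norm_eq_abs, abs_of_pos (by positivity), mul_assoc]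
      change ((y k) ^ 2)⁻¹ * y k ≤ 1
      have h0 : 0 < y k := by linarith
      rw [pow_two, mul_inv, mul_assoc, inv_mul_cancel₀ h0.ne', mul_one]
      exact inv_le_one_of_one_le₀ h.le
    · rw [not_lt] at h; exact h
  -- logarithmic weight
  set J : ℝ := ∑ k, (if 1 < y k then Real.log (y k) else 0) with hJ
  have hJ0 : ∀ k, 0 ≤ (if 1 < y k then Real.log (y k) else 0) := by
    intro k
    split_ifs with h
    · exact Real.log_nonneg h.le
    · exact le_rfl
  have hrefl : ∀ w : ℂ, ‖w‖ = R → ∀ k, ‖1 - u k * w‖ =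
      Real.exp (if 1 < y k then Real.log (y k) else 0) * ‖1 - c k * w‖ := by
    intro w hw k
    simp only [hc]
    split_ifs with h
    · have h0 : 0 < y k := by linarith
      rw [Real.exp_log h0]
      rw [← sq_eq_sq₀ (norm_nonneg _) (by positivity), mul_pow]
      have hw2 : Complex.normSq w = R ^ 2 := by rw [← hw, Complex.sq_norm]
      have hy2 : (y k) ^ 2 = Complex.normSq (u k) * R ^ 2 := by
        simp only [hy]; rw [mul_pow, Complex.sq_norm]
      have hu2 : Complex.normSq (u k * w) = (y k) ^ 2 := by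
        rw [Complex.normSq_mul, hw2, hy2]
      set s : ℝ := (y k) ^ 2 with hs
      have hs0 : s ≠ 0 := by positivity
      have e1 : ((s⁻¹ : ℝ) : ℂ) * u k * w = ((s⁻¹ : ℝ) : ℂ) * (u k * w) := by ring
      rw [e1, Complex.sq_norm, Complex.sq_norm]
      set p : ℂ := u k * w with hp'
      rw [Complex.normSq_apply] at hu2
      rw [Complex.normSq_apply, Complex.normSq_apply]
      simp only [Complex.sub_re, Complex.sub_im, Complex.one_re, Complex.one_im,
        Complex.re_ofReal_mul, Complex.im_ofReal_mul]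
      have e2 : s * ((1 - s⁻¹ * p.re) * (1 - s⁻¹ * p.re) + (0 - s⁻¹ * p.im) * (0 - s⁻¹ * p.im)) =
          s - 2 * p.re + s⁻¹ * (p.re * p.re + p.im * p.im) := by
        field_simp
        ring
      rw [e2, hu2, inv_mul_cancel₀ hs0]
      nlinarith [hu2]
    · rw [Real.exp_zero, one_mul]
  have hprod : ∀ w : ℂ, ‖w‖ = R → ‖∏ k, (1 - u k * w)‖ = Real.exp J * ‖∏ k, (1 - c k * w)‖ := by
    intro w hw
    rw [norm_prod, norm_prod, hJ, Real.exp_sum, ← Finset.prod_mul_distrib]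
    exact Finset.prod_congr rfl fun k _ => hrefl w hw k
  have hB0 : ∀ w : ℂ, ‖w‖ = R → ‖∏ k, (1 - c k * w)‖ ≤
      Real.exp (A - J) * ‖∏ j, (1 - d j * w)‖ := by
    intro w hw
    have h := hGb R hRpos le_rfl w hw
    rw [hprod w hw] at h
    rw [Real.exp_sub, div_mul_eq_mul_div, le_div_iff₀ (Real.exp_pos _)]
    linarith
  have hJA : J ≤ A := by
    have h := one_le_B hRpos hvR hB0
    have : 0 ≤ A - J := by
      have := Real.log_le_log one_pos h
      rwa [Real.log_one, Real.log_exp] at this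
    linarith
  have hJnn : 0 ≤ J := Finset.sum_nonneg fun k _ => hJ0 k
  have hB : ∀ w : ℂ, ‖w‖ = R → ‖∏ k, (1 - c k * w)‖ ≤
      Real.exp A * ‖∏ j, (1 - d j * w)‖ := by
    intro w hw
    refine (hB0 w hw).trans (mul_le_mul_of_nonneg_right (Real.exp_le_exp.2 (by linarith))
      (norm_nonneg _))
  have hco := (coef hRpos hApos hcR hvR hB).1
  -- the near part
  set ω : Fin m → ℝ := fun k => if 1 < y k then 1 - ((y k) ^ 2)⁻¹ else 0 with hω
  have hω0 : ∀ k, 0 ≤ ω k := by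
    intro k
    simp only [hω]
    split_ifs with h
    · have : ((y k) ^ 2)⁻¹ ≤ 1 := inv_le_one_of_one_le₀ (one_le_pow₀ h.le)
      linarith
    · exact le_rfl
  have hω1 : ∀ k, ω k ≤ 1 := by
    intro k
    simp only [hω]
    split_ifs with h
    · have : 0 ≤ ((y k) ^ 2)⁻¹ := by positivity
      linarith
    · exact zero_le_one
  have hωJ : ∑ k, ω k ≤ 2 * A := by
    refine le_trans ?_ (mul_le_mul_of_nonneg_left hJA zero_le_two)
    rw [hJ, Finset.mul_sum]
    refine Finset.sum_le_sum fun k _ => ?_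
    simp only [hω]
    split_ifs with h
    · have h0 : 0 < y k := by linarith
      have h3 := Real.one_sub_inv_le_log_of_pos (x := (y k) ^ 2) (by positivity)
      rw [Real.log_pow] at h3
      push_cast at h3
      exact h3
    · simp
  have hcω : ∀ k, u k - c k = (ω k : ℂ) * u k := by
    intro k
    simp only [hc, hω]
    split_ifs with h
    · push_cast; ring
    · simp
  set Z : ℂ := ∑ k, (ω k : ℂ) * u k with hZ
  have hZc : Z = 2 * V - ∑ k, c k := by
    rw [hZ, ← Finset.sum_congr rfl fun k _ => hcω k, Finset.sum_sub_distrib, h1]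
  have hZV : ‖Z - (2 * E + D)‖ ≤ 48 / δ * A := by
    have e1 : Z - (2 * E + D) = -(∑ k, c k - ∑ j, d j) := by
      rw [hZc, hVDE, ← hD]; ring
    rw [e1, norm_neg]
    refine hco.trans (le_of_eq ?_)
    rw [hR]; field_simp; ring
  have hΦZ : ‖Z‖ + (a * Z).re - 2 * A ≤ Φ := by
    have e1 : ‖Z‖ ≤ ∑ k, ω k * ‖u k‖ := by
      rw [hZ]
      refine (norm_sum_le _ _).trans (le_of_eq ?_)
      refine Finset.sum_congr rfl fun k _ => ?_
      rw [norm_mul, Complex.norm_real, Real.norm_eq_abs, abs_of_nonneg (hω0 k)]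
    have e2 : (a * Z).re = ∑ k, ω k * (a * u k).re := by
      rw [hZ, Finset.mul_sum, Complex.re_sum]
      refine Finset.sum_congr rfl fun k _ => ?_
      have : a * ((ω k : ℂ) * u k) = (ω k : ℂ) * (a * u k) := by ring
      rw [this, Complex.re_ofReal_mul]
    have e3 : ∑ k, ω k * phi a (u k) ≤ Φ := by
      rw [hΦ]
      refine Finset.sum_le_sum fun k _ => ?_
      exact mul_le_of_le_one_left (hp k) (hω1 k)
    have e4 : ∑ k, ω k * phi a (u k) = ∑ k, ω k * ‖u k‖ + ∑ k, ω k * (a * u k).re - ∑ k, ω k := by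
      rw [← Finset.sum_add_distrib, ← Finset.sum_sub_distrib]
      refine Finset.sum_congr rfl fun k _ => ?_
      unfold phi; ring
    linarith
  -- bounds of Z and V
  have hre : ∀ x : ℂ, (a * x).re ≤ α * ‖x‖ := by
    intro x
    refine (Complex.re_le_norm _).trans ?_
    rw [norm_mul]
  set Y : ℂ := Z - (2 * E + D) with hY
  have hYre : |(a * Y).re| ≤ α * (48 / δ * A) := by
    have h3 := Complex.abs_re_le_norm (a * Y)
    rw [norm_mul] at h3
    exact h3.trans (mul_le_mul_of_nonneg_left hZV hα0)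
  have hYlow := (abs_le.1 hYre).1
  have hYup := (abs_le.1 hYre).2
  have hα48 : α * (48 / δ * A) ≤ 48 / δ * A := by
    have h0 : 0 ≤ 48 / δ * A := by positivity
    nlinarith
  have hVre : (a * V).re = (a * Z).re - (a * E).re - (a * Y).re := by
    rw [← Complex.sub_re, ← Complex.sub_re]; congr 1; rw [hVDE, hY]; ring
  have hDre : (a * V).re + (a * V).re = (a * Z).re - (a * Y).re + (a * D).re := by
    rw [← Complex.sub_re, ← Complex.add_re, ← Complex.add_re]; congr 1; rw [hVDE, hY]; ring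
  have hZb : (1 - α) * ‖Z‖ ≤ 2 * A + 2 * (48 / δ * A) := by
    have e3 := hre Z
    linarith
  have hZC : ‖Z‖ + 48 / δ * A ≤ C0 * A := by
    have e1 : ‖Z‖ ≤ (2 * A + 2 * (48 / δ * A)) / (1 - α) := by
      rw [le_div_iff₀ hα1, mul_comm]; exact hZb
    have e3 : C0 * A = (2 * A + 2 * (48 / δ * A)) / (1 - α) + 48 / δ * A := by
      rw [hC0]; field_simp; ring
    rw [e3]; linarith
  have hC0nn : 0 ≤ C0 * A := le_trans (by positivity) hZC
  have hVB : (a * V).re ≤ α * (C0 * A) := by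
    have e1 := hre Z
    have e2 : α * (‖Z‖ + 48 / δ * A) ≤ α * (C0 * A) := mul_le_mul_of_nonneg_left hZC hα0
    linarith
  have hΦB : Φ ≤ 2 * α * (C0 * A) := by linarith
  -- all critical points stay away
  set K : ℝ := (2 * α * (C0 * A) + 1) / (1 - α) with hK
  have hαC : 0 ≤ α * (C0 * A) := mul_nonneg hα0 hC0nn
  have hKpos : 0 < K := by rw [hK]; refine div_pos (by linarith) hα1
  have huK : ∀ k, ‖u k‖ ≤ K := by
    intro k
    have e1 : phi a (u k) ≤ Φ := by
      rw [hΦ]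
      exact Finset.single_le_sum (f := fun k => phi a (u k)) (fun k _ => hp k) (Finset.mem_univ k)
    have e2 : (1 - α) * ‖u k‖ - 1 ≤ phi a (u k) := by
      unfold phi
      have h3 := Complex.abs_re_le_norm (a * u k)
      rw [norm_mul] at h3
      have := (abs_le.1 h3).1
      linarith
    rw [hK, le_div_iff₀ hα1, mul_comm]
    linarith
  have huhalf : ∀ k, 1 / 2 ≤ ‖u k‖ := by
    intro k
    have e1 := hp k
    unfold phi at e1
    have e2 := hre (u k)
    have e3 : α * ‖u k‖ ≤ 1 * ‖u k‖ := mul_le_mul_of_nonneg_right ha.le (norm_nonneg _)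
    linarith
  -- second circle
  set T : ℝ := K + 2 / δ with hT
  have hTpos : 0 < T := by positivity
  have hT1 : 0 < 1 / T := by positivity
  have hTδ : 1 / T ≤ δ / 2 := by
    rw [div_le_div_iff₀ hTpos two_pos]
    have : δ * T = δ * K + 2 := by rw [hT]; field_simp
    have h0 : 0 ≤ δ * K := by positivity
    linarith
  have hco2 := (coef hT1 hApos (c := u) (d := d) (fun k => by
      rw [mul_one_div, div_le_one hTpos]
      have := huK k
      have h0 : 0 ≤ 2 / δ := by positivity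
      linarith) (fun j => by
      calc ‖d j‖ * (1 / T) ≤ 1 / δ * (δ / 2) := mul_le_mul (hdδ j) hTδ hT1.le (by positivity)
        _ = 1 / 2 := by field_simp) (hGb (1 / T) hT1 hTδ)).2
  set X : ℂ := ∑ k, u k ^ 2 - ∑ j, d j ^ 2 with hX
  have hXb : ‖X‖ ≤ 48 * A * T ^ 2 := by
    refine hco2.trans (le_of_eq ?_)
    field_simp
  have hsq : a ^ 2 * ∑ k, u k ^ 2 = (3 / 2 : ℝ) * (a ^ 2 * X) - (1 / 2 : ℝ) * (a * V) ^ 2
      - (3 / 2 : ℝ) * (a ^ 2 * ∑ j, e j ^ 2) := by
    have e1 : ∑ j, v j ^ 2 = ∑ j, d j ^ 2 + ∑ j, e j ^ 2 := by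
      rw [← Finset.sum_add_distrib]
      exact Finset.sum_congr rfl fun j _ => hde2 j
    have e2 : ∑ j, d j ^ 2 = (∑ k, u k ^ 2 - V ^ 2) / 3 - ∑ j, e j ^ 2 := by
      rw [h2, e1]; ring
    rw [hX, e2]; push_cast; ring
  have hVsq : -(8 / 3 * (α * (C0 * A)) ^ 2) ≤ ((a * V) ^ 2).re := by
    have e1 : a * V = a * (Z - Y) - a * E := by rw [hVDE, hY]; ring
    set f : ℂ := a * (Z - Y) with hf
    have hfn : ‖f‖ ≤ α * (C0 * A) := by
      rw [hf, norm_mul]
      refine mul_le_mul_of_nonneg_left ?_ hα0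
      exact (norm_sub_le _ _).trans (by linarith)
    have hf2 : f.re ^ 2 + f.im ^ 2 ≤ (α * (C0 * A)) ^ 2 := by
      have : f.re ^ 2 + f.im ^ 2 = ‖f‖ ^ 2 := by
        rw [Complex.sq_norm, Complex.normSq_apply]; ring
      rw [this]
      exact pow_le_pow_left₀ (norm_nonneg _) hfn 2
    rw [e1]
    set g : ℂ := a * E with hg
    have h4 : g.im ^ 2 ≤ g.re ^ 2 / 4 := by
      have h5 : g.im ^ 2 = |g.im| ^ 2 := by rw [sq_abs]
      rw [h5]
      have := pow_le_pow_left₀ (abs_nonneg _) hEsec 2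
      linarith [this, (by ring : (g.re / 2) ^ 2 = g.re ^ 2 / 4)]
    have e2 : ((f - g) ^ 2).re = (f.re - g.re) ^ 2 - (f.im - g.im) ^ 2 := by
      rw [pow_two, Complex.mul_re, Complex.sub_re, Complex.sub_im]; ring
    rw [e2]
    have e3 : (f.re - g.re) ^ 2 - (f.im - g.im) ^ 2 + 8 / 3 * (f.re ^ 2 + f.im ^ 2) =
        (g.re ^ 2 - g.im ^ 2 - 2 * f.re * g.re + 2 * f.im * g.im) + 11 / 3 * f.re ^ 2 +
          5 / 3 * f.im ^ 2 := by ring
    -- g.re^2 - g.im^2 ≥ (3/5)(g.re^2 + g.im^2)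
    have h6 : 3 / 5 * (g.re ^ 2 + g.im ^ 2) ≤ g.re ^ 2 - g.im ^ 2 := by linarith
    have h7 : 0 ≤ 3 / 5 * (g.re ^ 2 + g.im ^ 2) - 2 * f.re * g.re + 2 * f.im * g.im +
        11 / 3 * f.re ^ 2 + 5 / 3 * f.im ^ 2 := by
      nlinarith [sq_nonneg (3 / 5 * g.re - f.re), sq_nonneg (3 / 5 * g.im + f.im)]
    linarith
  -- conclusion
  have hlow : ∀ k, α ^ 2 / 4 - 4 * K * phi a (u k) ≤ (a ^ 2 * u k ^ 2).re := by
    intro k
    refine le_trans ?_ (re_sq (hq k))
    have e1 : α ^ 2 / 4 ≤ α ^ 2 * ‖u k‖ ^ 2 := by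
      have : (1 / 2 : ℝ) ^ 2 ≤ ‖u k‖ ^ 2 := pow_le_pow_left₀ (by norm_num) (huhalf k) 2
      nlinarith [sq_nonneg α]
    have e2 : phi a (u k) * ‖u k‖ ≤ phi a (u k) * K := mul_le_mul_of_nonneg_left (huK k) (hp k)
    nlinarith
  have hsum : α ^ 2 * m / 4 - 4 * K * Φ ≤ (a ^ 2 * ∑ k, u k ^ 2).re := by
    have e5 : a ^ 2 * ∑ k, u k ^ 2 = ∑ k, a ^ 2 * u k ^ 2 := Finset.mul_sum _ _ _
    rw [e5, Complex.re_sum]
    refine le_trans (le_of_eq ?_) (Finset.sum_le_sum fun k _ => hlow k)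
    rw [Finset.sum_sub_distrib, ← Finset.mul_sum]
    simp only [Finset.sum_const, Finset.card_univ, Fintype.card_fin, nsmul_eq_mul]
    ring
  have hup : (a ^ 2 * ∑ k, u k ^ 2).re ≤
      α ^ 2 * (72 * A * T ^ 2 + 4 * (C0 * A) ^ 2 / 3) := by
    rw [hsq, Complex.sub_re, Complex.sub_re, Complex.re_ofReal_mul, Complex.re_ofReal_mul,
      Complex.re_ofReal_mul]
    have e1 : (a ^ 2 * X).re ≤ α ^ 2 * (48 * A * T ^ 2) := by
      refine (Complex.re_le_norm _).trans ?_
      rw [norm_mul, norm_pow]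
      exact mul_le_mul_of_nonneg_left hXb (by positivity)
    have e2 : (α * (C0 * A)) ^ 2 = α ^ 2 * (C0 * A) ^ 2 := by ring
    rw [e2] at hVsq
    linarith
  have hKΦ : 4 * K * Φ ≤ 8 * K * α * (C0 * A) := by
    have := mul_le_mul_of_nonneg_left hΦB (by positivity : 0 ≤ 4 * K)
    linarith
  exact ⟨hVB, by linarith⟩

end Pool.Agent.TH298.MI
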