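import Pool.Agent.TH298.MI.Main

/-!
From a polynomial to the data `u_k`, `v_j`.
-/

set_option autoImplicit false

namespace Pool.Agent.TH298.MI

open Polynomial

variable {m : ℕ}

/-- list a multiset of cardinality `m` by a function on `Fin m` -/
theorem exists_fin {s : Multiset ℂ} (hs : s.card = m) :
    ∃ w : Fin m → ℂ, s = Finset.univ.val.map w := by
  obtain ⟨L, hL⟩ := Quot.exists_rep s
  have hL' : (L : Multiset ℂ) = s := hL
  have hlen : L.length = m := by rw [← hL', Multiset.coe_card] at hs; exact hs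
  refine ⟨fun k => L.get (Fin.cast hlen.symm k), ?_⟩
  rw [Fin.univ_val_map, ← hL']
  congr 1
  exact List.ext_get (by simp [hlen]) (fun i _ _ => by simp)

/-- the first coefficients of a product -/
theorem coefs {ι : Type*} (s : Finset ι) (c : ι → ℂ) :
    (∏ k ∈ s, (1 - C (c k) * X)).coeff 0 = 1 ∧
    (∏ k ∈ s, (1 - C (c k) * X)).coeff 1 = -∑ k ∈ s, c k ∧
    (∏ k ∈ s, (1 - C (c k) * X)).coeff 2 = ((∑ k ∈ s, c k) ^ 2 - ∑ k ∈ s, c k ^ 2) / 2 := by
  classical
  induction s using Finset.induction_on with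
  | empty => simp [coeff_one]
  | insert i s hi ih =>
    obtain ⟨h0, h1, h2⟩ := ih
    rw [Finset.prod_insert hi, Finset.sum_insert hi, Finset.sum_insert hi]
    set Q := ∏ k ∈ s, (1 - C (c k) * X) with hQ
    have e : (1 - C (c i) * X) * Q = Q - C (c i) * (X * Q) := by ring
    rw [e]
    refine ⟨?_, ?_, ?_⟩
    · rw [coeff_sub, coeff_C_mul, coeff_X_mul_zero, h0]; ring
    · rw [coeff_sub, coeff_C_mul, coeff_X_mul, h0, h1]; ring
    · rw [coeff_sub, coeff_C_mul, coeff_X_mul, h1, h2]; ring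

/-- power sums from the functional equation -/
theorem power_sums {u v : Fin m → ℂ}
    (hG : ∀ w : ℂ, ∏ k, (1 - u k * w) = ∏ j, (1 - v j * w) -
      w * ∑ j, v j * ∏ i ∈ Finset.univ.erase j, (1 - v i * w)) :
    ∑ k, u k = 2 * ∑ j, v j ∧
      ∑ k, u k ^ 2 = 3 * ∑ j, v j ^ 2 + (∑ j, v j) ^ 2 := by
  set S : ℂ[X] := ∏ k, (1 - C (u k) * X) with hS
  set Q : ℂ[X] := ∏ j, (1 - C (v j) * X) with hQ
  have hder : derivative Q = -∑ j, C (v j) * ∏ i ∈ Finset.univ.erase j, (1 - C (v i) * X) := by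
    rw [hQ, derivative_prod_finset, ← Finset.sum_neg_distrib]
    refine Finset.sum_congr rfl fun j _ => ?_
    simp
    ring
  have hid : S = Q + X * derivative Q := by
    refine Polynomial.funext fun w => ?_
    have h := hG w
    rw [hder]
    simp only [hS, hQ, eval_prod, eval_sub, eval_one, eval_mul, eval_C, eval_X, eval_add,
      eval_neg, eval_finsetSum]
    rw [h]
    ring
  obtain ⟨-, s1, s2⟩ := coefs Finset.univ u
  obtain ⟨-, q1, q2⟩ := coefs Finset.univ v
  rw [← hS] at s1 s2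
  rw [← hQ] at q1 q2
  have c1 : S.coeff 1 = 2 * Q.coeff 1 := by
    rw [hid, coeff_add, coeff_X_mul, coeff_derivative]; push_cast; ring
  have c2 : S.coeff 2 = 3 * Q.coeff 2 := by
    rw [hid, coeff_add, coeff_X_mul, coeff_derivative]; push_cast; ring
  rw [s1, q1] at c1
  rw [s2, q2] at c2
  have e1 : ∑ k, u k = 2 * ∑ j, v j := by linear_combination -c1
  refine ⟨e1, ?_⟩
  rw [e1] at c2
  linear_combination (-2) * c2

/-- the data of a polynomial -/
theorem data {P : ℂ[X]} {a : ℂ} (hn : P.natDegree = m + 1) (ha : a ∈ P.roots)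
    (hd : P.derivative.eval a ≠ 0) (hz : ∀ z ∈ P.roots, ‖z‖ ≤ 1) :
    ∃ z w : Fin m → ℂ, P.roots.erase a = Finset.univ.val.map z ∧
      P.derivative.roots = Finset.univ.val.map w ∧ (∀ k, w k ≠ a) ∧ (∀ k, ‖w k‖ ≤ 1) ∧
      (∀ j, z j ≠ a) ∧
      ∀ x : ℂ, ∏ k, (1 - (a - w k)⁻¹ * x) = ∏ j, (1 - (a - z j)⁻¹ * x) -
        x * ∑ j, (a - z j)⁻¹ * ∏ i ∈ Finset.univ.erase j, (1 - (a - z i)⁻¹ * x) := by
  have hP0 : P ≠ 0 := by intro h; rw [h] at hn; simp at hn
  have hs : P.Splits := IsAlgClosed.splits _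
  have hc : (P.roots.erase a).card = m := by
    rw [Multiset.card_erase_of_mem ha, ← hs.natDegree_eq_card_roots, hn]; rfl
  obtain ⟨z, hzz⟩ := exists_fin hc
  have hs' : P.derivative.Splits := IsAlgClosed.splits _
  have hc' : P.derivative.roots.card = m := by
    rw [← hs'.natDegree_eq_card_roots, natDegree_derivative, hn]; rfl
  obtain ⟨w, hww⟩ := exists_fin hc'
  have hP : P = C P.leadingCoeff * ((X - C a) * ∏ j, (X - C (z j))) := by
    have h1 := hs.eq_prod_roots
    conv_lhs => rw [h1]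
    rw [← Multiset.cons_erase ha, Multiset.map_cons, Multiset.prod_cons, hzz, Multiset.map_map]
    rfl
  have hlc : P.leadingCoeff ≠ 0 := leadingCoeff_ne_zero.2 hP0
  have hdw : ∀ x, P.derivative.eval x = P.leadingCoeff * ((m + 1) * ∏ k, (x - w k)) := by
    intro x
    rw [hs'.eval_eq_prod_roots, hww, Multiset.map_map, leadingCoeff_derivative, hn]
    push_cast
    change _ * ((m : ℂ) + 1) * ∏ k, (x - w k) = _
    ring
  have hdz : ∀ x, P.derivative.eval x = P.leadingCoeff * (∏ j, (x - z j) +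
      (x - a) * ∑ j, ∏ i ∈ Finset.univ.erase j, (x - z i)) := by
    intro x
    conv_lhs => rw [hP]
    rw [derivative_C_mul, derivative_mul, derivative_prod_finset]
    simp [eval_prod, eval_finsetSum]
  have hkey : ∀ x, (m + 1) * ∏ k, (x - w k) = ∏ j, (x - z j) +
      (x - a) * ∑ j, ∏ i ∈ Finset.univ.erase j, (x - z i) := by
    intro x
    exact mul_left_cancel₀ hlc ((hdw x).symm.trans (hdz x))
  have hwa : ∀ k, w k ≠ a := by
    intro k h
    apply hd
    have : w k ∈ P.derivative.roots := by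
      rw [hww]; exact Multiset.mem_map.2 ⟨k, Finset.mem_univ k, rfl⟩
    rw [h] at this
    exact (mem_roots'.1 this).2
  have hprod := hkey a
  rw [sub_self, zero_mul, add_zero] at hprod
  have hWne : ∏ k, (a - w k) ≠ 0 :=
    Finset.prod_ne_zero_iff.2 fun k _ => sub_ne_zero.2 (hwa k).symm
  have hm1 : (m : ℂ) + 1 ≠ 0 := by exact_mod_cast Nat.succ_ne_zero m
  have hZne : ∏ j, (a - z j) ≠ 0 := by rw [← hprod]; exact mul_ne_zero hm1 hWne
  have hza : ∀ j, z j ≠ a := by
    intro j h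
    apply Finset.prod_ne_zero_iff.1 hZne j (Finset.mem_univ j)
    rw [h, sub_self]
  refine ⟨z, w, hzz, hww, hwa, ?_, hza, ?_⟩
  · intro k
    have hmem : w k ∈ P.derivative.roots := by
      rw [hww]; exact Multiset.mem_map.2 ⟨k, Finset.mem_univ k, rfl⟩
    have hd0 : P.derivative ≠ 0 := (mem_roots'.1 hmem).1
    have h1 : w k ∈ P.derivative.rootSet ℂ := by
      rw [mem_rootSet]
      refine ⟨hd0, ?_⟩
      simpa using (mem_roots'.1 hmem).2
    have h2 := rootSet_derivative_subset_convexHull_rootSet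
      (natDegree_pos_iff_degree_pos.1 (by rw [hn]; omega)) h1
    have h3 : convexHull ℝ (P.rootSet ℂ) ⊆ Metric.closedBall 0 1 := by
      refine convexHull_min ?_ (convex_closedBall 0 1)
      intro y hy
      rw [mem_rootSet] at hy
      have : y ∈ P.roots := by
        rw [mem_roots hP0]
        simpa using hy.2
      simpa using hz y this
    simpa using h3 h2
  · intro x
    have h := hkey (a - x)
    have e1 : ∏ k, (a - x - w k) = (∏ k, (a - w k)) * ∏ k, (1 - (a - w k)⁻¹ * x) := by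
      rw [← Finset.prod_mul_distrib]
      refine Finset.prod_congr rfl fun k _ => ?_
      have h0 : a - w k ≠ 0 := sub_ne_zero.2 (hwa k).symm
      rw [mul_sub, mul_one, ← mul_assoc, mul_inv_cancel₀ h0, one_mul]
      ring
    have e2 : ∀ s : Finset (Fin m), ∏ i ∈ s, (a - x - z i) =
        (∏ i ∈ s, (a - z i)) * ∏ i ∈ s, (1 - (a - z i)⁻¹ * x) := by
      intro s
      rw [← Finset.prod_mul_distrib]
      refine Finset.prod_congr rfl fun k _ => ?_
      have h0 : a - z k ≠ 0 := sub_ne_zero.2 (hza k).symm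
      rw [mul_sub, mul_one, ← mul_assoc, mul_inv_cancel₀ h0, one_mul]
      ring
    have e3 : ∑ j, ∏ i ∈ Finset.univ.erase j, (a - x - z i) = (∏ j, (a - z j)) *
        ∑ j, (a - z j)⁻¹ * ∏ i ∈ Finset.univ.erase j, (1 - (a - z i)⁻¹ * x) := by
      rw [Finset.mul_sum]
      refine Finset.sum_congr rfl fun j _ => ?_
      rw [e2, ← Finset.mul_prod_erase Finset.univ (fun j => a - z j) (Finset.mem_univ j)]
      have h0 : a - z j ≠ 0 := sub_ne_zero.2 (hza j).symm
      have h1 : (a - z j) * (a - z j)⁻¹ = 1 := mul_inv_cancel₀ h0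
      linear_combination (-(∏ i ∈ Finset.univ.erase j, (a - z i)) *
        ∏ i ∈ Finset.univ.erase j, (1 - (a - z i)⁻¹ * x)) * h1
    rw [e1, e2, e3, ← mul_assoc, hprod] at h
    refine mul_left_cancel₀ hZne ?_
    rw [h]
    ring

end Pool.Agent.TH298.MI
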