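import Pool.Agent.TH298.MI.Core2
import Pool.Agent.TH298.MI.Pol

/-!
Polynomial data (with the product identity), the small `a` region and the final theorem.
-/

set_option autoImplicit false

namespace Pool.Agent.TH298.MI

open Polynomial

variable {m : ℕ}

/-- the data of a polynomial -/
theorem data2 {P : ℂ[X]} {a : ℂ} (hn : P.natDegree = m + 1) (ha : a ∈ P.roots)
    (hd : P.derivative.eval a ≠ 0) (hz : ∀ z ∈ P.roots, ‖z‖ ≤ 1) :
    ∃ z w : Fin m → ℂ, P.roots.erase a = Finset.univ.val.map z ∧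
      P.derivative.roots = Finset.univ.val.map w ∧ (∀ k, w k ≠ a) ∧ (∀ k, ‖w k‖ ≤ 1) ∧
      (∀ j, z j ≠ a) ∧ ((m : ℂ) + 1) * ∏ k, (a - w k) = ∏ j, (a - z j) ∧
      ∀ x : ℂ, ∏ k, (1 - (a - w k)⁻¹ * x) = ∏ j, (1 - (a - z j)⁻¹ * x) -
        x * ∑ j, (a - z j)⁻¹ * ∏ i ∈ Finset.univ.erase j, (1 - (a - z i)⁻¹ * x) := by
  have hP0 : P ≠ 0 := by intro h; rw [h] at hn; simp at hn
  have hs : P.Splits := IsAlgClosed.splits _
  have hc : (P.roots.erase a).card = m := by
    rw [Multiset.card_erase_of_mem ha, ← hs.natDegree_eq_card_roots, hn]; rfl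
  obtain ⟨z, hzz⟩ := exists_fin hc
  have hs' : P.derivative.Splits := IsAlgClosed.splits _
  have hc' : P.derivative.roots.card = m := by
    rw [← hs'.natDegree_eq_card_roots, natDegree_derivative, hn]; rfl
  obtain ⟨w, hww⟩ := exists_fin hc'
  have hP : P = C P.leadingCoeff * ((X - C a) * ∏ j, (X - C (z j))) := by
    have h1 := hs.eq_prod_roots
    conv_lhs => rw [h1]
    rw [← Multiset.cons_erase ha, Multiset.map_cons, Multiset.prod_cons, hzz, Multiset.map_map]
    rfl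
  have hlc : P.leadingCoeff ≠ 0 := leadingCoeff_ne_zero.2 hP0
  have hdw : ∀ x, P.derivative.eval x = P.leadingCoeff * ((m + 1) * ∏ k, (x - w k)) := by
    intro x
    rw [hs'.eval_eq_prod_roots, hww, Multiset.map_map, leadingCoeff_derivative, hn]
    push_cast
    change _ * ((m : ℂ) + 1) * ∏ k, (x - w k) = _
    ring
  have hdz : ∀ x, P.derivative.eval x = P.leadingCoeff * (∏ j, (x - z j) +
      (x - a) * ∑ j, ∏ i ∈ Finset.univ.erase j, (x - z i)) := by
    intro x
    conv_lhs => rw [hP]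
    rw [derivative_C_mul, derivative_mul, derivative_prod_finset]
    simp [eval_prod, eval_finsetSum]
  have hkey : ∀ x, (m + 1) * ∏ k, (x - w k) = ∏ j, (x - z j) +
      (x - a) * ∑ j, ∏ i ∈ Finset.univ.erase j, (x - z i) := by
    intro x
    exact mul_left_cancel₀ hlc ((hdw x).symm.trans (hdz x))
  have hwa : ∀ k, w k ≠ a := by
    intro k h
    apply hd
    have : w k ∈ P.derivative.roots := by
      rw [hww]; exact Multiset.mem_map.2 ⟨k, Finset.mem_univ k, rfl⟩
    rw [h] at this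
    exact (mem_roots'.1 this).2
  have hprod := hkey a
  rw [sub_self, zero_mul, add_zero] at hprod
  have hWne : ∏ k, (a - w k) ≠ 0 :=
    Finset.prod_ne_zero_iff.2 fun k _ => sub_ne_zero.2 (hwa k).symm
  have hm1 : (m : ℂ) + 1 ≠ 0 := by exact_mod_cast Nat.succ_ne_zero m
  have hZne : ∏ j, (a - z j) ≠ 0 := by rw [← hprod]; exact mul_ne_zero hm1 hWne
  have hza : ∀ j, z j ≠ a := by
    intro j h
    apply Finset.prod_ne_zero_iff.1 hZne j (Finset.mem_univ j)
    rw [h, sub_self]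
  refine ⟨z, w, hzz, hww, hwa, ?_, hza, hprod, ?_⟩
  · intro k
    have hmem : w k ∈ P.derivative.roots := by
      rw [hww]; exact Multiset.mem_map.2 ⟨k, Finset.mem_univ k, rfl⟩
    have hd0 : P.derivative ≠ 0 := (mem_roots'.1 hmem).1
    have h1 : w k ∈ P.derivative.rootSet ℂ := by
      rw [mem_rootSet]
      refine ⟨hd0, ?_⟩
      simpa using (mem_roots'.1 hmem).2
    have h2 := rootSet_derivative_subset_convexHull_rootSet
      (natDegree_pos_iff_degree_pos.1 (by rw [hn]; omega)) h1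
    have h3 : convexHull ℝ (P.rootSet ℂ) ⊆ Metric.closedBall 0 1 := by
      refine convexHull_min ?_ (convex_closedBall 0 1)
      intro y hy
      rw [mem_rootSet] at hy
      have : y ∈ P.roots := by
        rw [mem_roots hP0]
        simpa using hy.2
      simpa using hz y this
    simpa using h3 h2
  · intro x
    have h := hkey (a - x)
    have e1 : ∏ k, (a - x - w k) = (∏ k, (a - w k)) * ∏ k, (1 - (a - w k)⁻¹ * x) := by
      rw [← Finset.prod_mul_distrib]
      refine Finset.prod_congr rfl fun k _ => ?_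
      have h0 : a - w k ≠ 0 := sub_ne_zero.2 (hwa k).symm
      rw [mul_sub, mul_one, ← mul_assoc, mul_inv_cancel₀ h0, one_mul]
      ring
    have e2 : ∀ s : Finset (Fin m), ∏ i ∈ s, (a - x - z i) =
        (∏ i ∈ s, (a - z i)) * ∏ i ∈ s, (1 - (a - z i)⁻¹ * x) := by
      intro s
      rw [← Finset.prod_mul_distrib]
      refine Finset.prod_congr rfl fun k _ => ?_
      have h0 : a - z k ≠ 0 := sub_ne_zero.2 (hza k).symm
      rw [mul_sub, mul_one, ← mul_assoc, mul_inv_cancel₀ h0, one_mul]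
      ring
    have e3 : ∑ j, ∏ i ∈ Finset.univ.erase j, (a - x - z i) = (∏ j, (a - z j)) *
        ∑ j, (a - z j)⁻¹ * ∏ i ∈ Finset.univ.erase j, (1 - (a - z i)⁻¹ * x) := by
      rw [Finset.mul_sum]
      refine Finset.sum_congr rfl fun j _ => ?_
      rw [e2, ← Finset.mul_prod_erase Finset.univ (fun j => a - z j) (Finset.mem_univ j)]
      have h0 : a - z j ≠ 0 := sub_ne_zero.2 (hza j).symm
      have h1 : (a - z j) * (a - z j)⁻¹ = 1 := mul_inv_cancel₀ h0
      linear_combination (-(∏ i ∈ Finset.univ.erase j, (a - z i)) *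
        ∏ i ∈ Finset.univ.erase j, (1 - (a - z i)⁻¹ * x)) * h1
    rw [e1, e2, e3, ← mul_assoc, hprod] at h
    refine mul_left_cancel₀ hZne ?_
    rw [h]
    ring


/-- pointwise inequality used for small `a` -/
theorem log_point {a z : ℂ} {δ : ℝ} (hδ : 0 < δ) (ha5 : ‖a‖ ≤ 1 / 5) (haδ : 2 * ‖a‖ ≤ δ)
    (hz : ‖z‖ ≤ 1) (hne : a ≠ z) (hd : δ ≤ ‖a - z‖) :
    -(10 * ‖a‖ ^ 2) ≤ Real.log ‖(a - z)⁻¹‖ + (a * (a - z)⁻¹).re := by
  obtain ⟨hp, hq⟩ := point (a := a) (z := z) (by linarith) hz hne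
  set v : ℂ := (a - z)⁻¹ with hv
  set α : ℝ := ‖a‖ with hα
  have hα0 : 0 ≤ α := norm_nonneg _
  set r : ℝ := ‖v‖ with hr
  have hr0 : 0 < r := norm_pos_iff.2 (inv_ne_zero (sub_ne_zero.2 hne))
  have hrδ : r * δ ≤ 1 := by
    rw [hr, hv, norm_inv]
    have h0 : 0 < ‖a - z‖ := by linarith
    calc ‖a - z‖⁻¹ * δ ≤ ‖a - z‖⁻¹ * ‖a - z‖ := mul_le_mul_of_nonneg_left hd (by positivity)
      _ = 1 := inv_mul_cancel₀ h0.ne'
  have habs : |(a * v).re| ≤ α * r := by
    have := Complex.abs_re_le_norm (a * v)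
    rwa [norm_mul] at this
  have hlow := (abs_le.1 habs).1
  have hup := (abs_le.1 habs).2
  unfold phi at hp hq
  have hr1 : 1 ≤ r * (1 + α) := by nlinarith
  have hlog : (r - 1) / r ≤ Real.log r := by
    have := Real.one_sub_inv_le_log_of_pos hr0
    have e : (r - 1) / r = 1 - r⁻¹ := by field_simp
    rw [e]; exact this
  rcases le_total r (1 + 2 * α) with h | h
  · -- near one
    have hy1 : -α ≤ r - 1 := by nlinarith
    have h1 : (r - 1) - 2 * (r - 1) ^ 2 ≤ (r - 1) / r := by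
      rw [le_div_iff₀ hr0]
      have : (r - 1) ^ 2 * (1 + 2 * (r - 1)) ≥ 0 := by
        refine mul_nonneg (sq_nonneg _) (by linarith)
      nlinarith
    have h2 : 1 / 2 - 1 / 2 * (1 - α ^ 2) * r ^ 2 ≤ (a * v).re := by nlinarith
    have h3 : (r - 1) ^ 2 ≤ 4 * α ^ 2 := by nlinarith
    nlinarith [mul_nonneg (sq_nonneg α) (sq_nonneg r)]
  · have h2r : 2 * α * r ≤ 1 := by nlinarith
    have h1 : α * r ≤ (r - 1) / r := by
      rw [le_div_iff₀ hr0]
      have h3 : 0 ≤ (r - (1 + 2 * α)) * (1 - 2 * α * r) :=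
        mul_nonneg (by linarith) (by linarith)
      -- 2 * (r - 1 - α r^2) = ...
      nlinarith [mul_nonneg hα0 hr0.le, mul_nonneg hα0 hα0]
    nlinarith [sq_nonneg α]

end Pool.Agent.TH298.MI
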