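import Pool.Agent.TH298.MI.Pol

/-!
The mean reciprocal distance inequality for isolated zeros.
-/

set_option autoImplicit false

namespace Pool.Agent.TH298.MI

open Polynomial
open scoped ENNReal

variable {m : ℕ}

/-- numerical form of `core` -/
theorem numeric {α δ A M : ℝ} (hα0 : 0 ≤ α) (hα : α < 1) (hδ : 0 < δ) (hδ2 : δ ≤ 2)
    (hA : 69 / 100 ≤ A) {C0 : ℝ} (hC0 : C0 = (2 + 96 / δ) / (1 - α) + 48 / δ)
    (h : α ^ 2 * M / 4 ≤ 8 * ((2 * C0 * A + 1) / (1 - α)) * (C0 * A) +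
      72 * A * ((2 * C0 * A + 1) / (1 - α) + 2 / δ) ^ 2 + (C0 * A) ^ 2 / 2) :
    M * α ^ 2 * (1 - α) ^ 4 * δ ^ 2 < 3 * 10 ^ 7 * A ^ 3 := by
  set L : ℝ := 1 - α with hL
  have hL0 : 0 < L := by linarith
  have hL1 : L ≤ 1 := by linarith
  have hA0 : 0 < A := by linarith
  have hs : 0 < 1 / (δ * L) := by positivity
  -- C0 ≤ 148/(δ L)
  have hC : C0 ≤ 148 / (δ * L) := by
    rw [hC0, div_add_div _ _ hL0.ne' hδ.ne', div_le_div_iff₀ (by positivity) (by positivity)]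
    have e : (2 + 96 / δ) * δ = 2 * δ + 96 := by field_simp
    rw [e]
    have : (2 * δ + 96 + L * 48) ≤ 148 := by linarith
    have h0 : 0 < δ * L := by positivity
    nlinarith
  have hC0' : 0 < C0 := by rw [hC0]; positivity
  have hCA : C0 * A ≤ 148 * A / (δ * L) := by
    calc C0 * A ≤ 148 / (δ * L) * A := mul_le_mul_of_nonneg_right hC hA0.le
      _ = _ := by ring
  have hCA0 : 0 < C0 * A := by positivity
  -- K
  set K : ℝ := (2 * C0 * A + 1) / L with hK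
  have hKb : K ≤ 299 * A / (δ * L ^ 2) := by
    rw [hK, div_le_div_iff₀ hL0 (by positivity)]
    have e1 : 2 * C0 * A * (δ * L) ≤ 296 * A := by
      have : C0 * A * (δ * L) ≤ 148 * A := by
        calc C0 * A * (δ * L) ≤ 148 * A / (δ * L) * (δ * L) :=
              mul_le_mul_of_nonneg_right hCA (by positivity)
          _ = _ := by field_simp
      linarith
    have e2 : δ * L ≤ 2 := by nlinarith
    have e3 : (2 * C0 * A + 1) * (δ * L) ≤ 299 * A := by nlinarith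
    calc (2 * C0 * A + 1) * (δ * L ^ 2) = (2 * C0 * A + 1) * (δ * L) * L := by ring
      _ ≤ 299 * A * L := mul_le_mul_of_nonneg_right e3 hL0.le
  have hK0 : 0 < K := by rw [hK]; positivity
  have hTb : K + 2 / δ ≤ 302 * A / (δ * L ^ 2) := by
    have e1 : 2 / δ ≤ 3 * A / (δ * L ^ 2) := by
      rw [div_le_div_iff₀ hδ (by positivity)]
      have : L ^ 2 ≤ 1 := pow_le_one₀ hL0.le hL1
      have h2 : 2 * (δ * L ^ 2) ≤ 2 * δ := by nlinarith
      nlinarith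
    have e2 : 302 * A / (δ * L ^ 2) = 299 * A / (δ * L ^ 2) + 3 * A / (δ * L ^ 2) := by ring
    rw [e2]; exact add_le_add hKb e1
  have hD : 0 < δ ^ 2 * L ^ 4 := by positivity
  have t1 : 8 * K * (C0 * A) * (δ ^ 2 * L ^ 4) ≤ 8 * 299 * 148 * A ^ 2 := by
    have e1 : K * (C0 * A) ≤ 299 * A / (δ * L ^ 2) * (148 * A / (δ * L)) :=
      mul_le_mul hKb hCA hCA0.le (by positivity)
    have e2 : 299 * A / (δ * L ^ 2) * (148 * A / (δ * L)) * (δ ^ 2 * L ^ 4) =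
        299 * 148 * A ^ 2 * L := by field_simp
    have e3 : K * (C0 * A) * (δ ^ 2 * L ^ 4) ≤ 299 * 148 * A ^ 2 * L := by
      rw [← e2]; exact mul_le_mul_of_nonneg_right e1 hD.le
    have e4 : 299 * 148 * A ^ 2 * L ≤ 299 * 148 * A ^ 2 * 1 :=
      mul_le_mul_of_nonneg_left hL1 (by positivity)
    nlinarith
  have t2 : 72 * A * (K + 2 / δ) ^ 2 * (δ ^ 2 * L ^ 4) ≤ 72 * 302 ^ 2 * A ^ 3 := by
    have e1 : (K + 2 / δ) ^ 2 ≤ (302 * A / (δ * L ^ 2)) ^ 2 :=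
      pow_le_pow_left₀ (by positivity) hTb 2
    have e2 : (302 * A / (δ * L ^ 2)) ^ 2 * (δ ^ 2 * L ^ 4) = 302 ^ 2 * A ^ 2 := by
      field_simp
    have e3 : (K + 2 / δ) ^ 2 * (δ ^ 2 * L ^ 4) ≤ 302 ^ 2 * A ^ 2 := by
      rw [← e2]; exact mul_le_mul_of_nonneg_right e1 hD.le
    calc 72 * A * (K + 2 / δ) ^ 2 * (δ ^ 2 * L ^ 4) =
          72 * A * ((K + 2 / δ) ^ 2 * (δ ^ 2 * L ^ 4)) := by ring
      _ ≤ 72 * A * (302 ^ 2 * A ^ 2) := mul_le_mul_of_nonneg_left e3 (by positivity)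
      _ = _ := by ring
  have t3 : (C0 * A) ^ 2 / 2 * (δ ^ 2 * L ^ 4) ≤ 148 ^ 2 / 2 * A ^ 2 := by
    have e1 : (C0 * A) ^ 2 ≤ (148 * A / (δ * L)) ^ 2 := pow_le_pow_left₀ hCA0.le hCA 2
    have e2 : (148 * A / (δ * L)) ^ 2 * (δ ^ 2 * L ^ 4) = 148 ^ 2 * A ^ 2 * L ^ 2 := by
      field_simp
    have e3 : (C0 * A) ^ 2 * (δ ^ 2 * L ^ 4) ≤ 148 ^ 2 * A ^ 2 * L ^ 2 := by
      rw [← e2]; exact mul_le_mul_of_nonneg_right e1 hD.le
    have e4 : L ^ 2 ≤ 1 := pow_le_one₀ hL0.le hL1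
    have e5 : 148 ^ 2 * A ^ 2 * L ^ 2 ≤ 148 ^ 2 * A ^ 2 * 1 :=
      mul_le_mul_of_nonneg_left e4 (by positivity)
    nlinarith
  have h4 := mul_le_mul_of_nonneg_right h hD.le
  have e6 : α ^ 2 * M / 4 * (δ ^ 2 * L ^ 4) = M * α ^ 2 * L ^ 4 * δ ^ 2 / 4 := by ring
  rw [e6] at h4
  have h5 : M * α ^ 2 * L ^ 4 * δ ^ 2 / 4 ≤
      8 * 299 * 148 * A ^ 2 + 72 * 302 ^ 2 * A ^ 3 + 148 ^ 2 / 2 * A ^ 2 := by
    refine h4.trans (le_trans (le_of_eq ?_) (add_le_add (add_le_add t1 t2) t3))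
    ring
  have h6 : A ^ 2 * (69 / 100) ≤ A ^ 3 := by
    have : A ^ 3 = A ^ 2 * A := by ring
    rw [this]; exact mul_le_mul_of_nonneg_left hA (by positivity)
  have h7 : 0 < A ^ 3 := by positivity
  linarith

/-- the two inequalities, for the real valued sum -/
theorem main_real {P : ℂ[X]} (hn : P.natDegree = m + 1) (hm : 1 ≤ m)
    (hz : ∀ z ∈ P.roots, ‖z‖ ≤ 1) {a : ℂ} (ha : a ∈ P.roots)
    (hd : P.derivative.eval a ≠ 0) :
    ((m : ℝ) ≤ (P.derivative.roots.map fun ζ => ‖a - ζ‖⁻¹).sum +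
        2 * (((P.roots.erase a).map fun z => a / (a - z)).sum).re) ∧
    (∀ δ : ℝ, 0 < δ → ‖a‖ < 1 → (∀ z ∈ P.roots.erase a, δ ≤ ‖a - z‖) →
      3 * 10 ^ 7 * Real.log (m + 1) ^ 3 ≤ m * ‖a‖ ^ 2 * (1 - ‖a‖) ^ 4 * δ ^ 2 →
      (m : ℝ) ≤ (P.derivative.roots.map fun ζ => ‖a - ζ‖⁻¹).sum) := by
  obtain ⟨z, w, hzz, hww, hwa, hw1, hza, hG⟩ := data hn ha hd hz
  obtain ⟨h1, h2⟩ := power_sums hG
  have ha1 : ‖a‖ ≤ 1 := hz a ha
  have hS : (P.derivative.roots.map fun ζ => ‖a - ζ‖⁻¹).sum = ∑ k, ‖(a - w k)⁻¹‖ := by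
    rw [hww, Multiset.map_map]
    simp only [Function.comp_def, norm_inv]
    rfl
  have hV : ((P.roots.erase a).map fun z => a / (a - z)).sum = a * ∑ j, (a - z j)⁻¹ := by
    rw [hzz, Multiset.map_map, Finset.mul_sum]
    simp only [Function.comp_def, div_eq_mul_inv]
    rfl
  have hp : ∀ k, 0 ≤ phi a (a - w k)⁻¹ := fun k => (point ha1 (hw1 k) (hwa k).symm).1
  rw [hS]
  constructor
  · rw [hV]
    have e1 : 2 * (a * ∑ j, (a - z j)⁻¹).re = ∑ k, (a * (a - w k)⁻¹).re := by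
      rw [← Complex.re_sum, ← Finset.mul_sum, h1]
      have : a * (2 * ∑ j, (a - z j)⁻¹) = (2 : ℝ) * (a * ∑ j, (a - z j)⁻¹) := by
        push_cast; ring
      rw [this, Complex.re_ofReal_mul]
    rw [e1, ← Finset.sum_add_distrib]
    calc (m : ℝ) = ∑ _k : Fin m, (1 : ℝ) := by simp
      _ ≤ _ := by
        refine Finset.sum_le_sum fun k _ => ?_
        have := hp k
        unfold phi at this
        linarith
  · intro δ hδ halt hsep hlarge
    by_contra hcon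
    rw [not_le] at hcon
    have hzs : ∀ j, δ ≤ ‖a - z j‖ := by
      intro j
      refine hsep (z j) ?_
      rw [hzz]; exact Multiset.mem_map.2 ⟨j, Finset.mem_univ j, rfl⟩
    have hδ2 : δ ≤ 2 := by
      have j : Fin m := ⟨0, hm⟩
      have e1 := hzs j
      have e2 : ‖z j‖ ≤ 1 := by
        refine hz _ (Multiset.mem_of_mem_erase (a := z j) (b := a) ?_)
        rw [hzz]; exact Multiset.mem_map.2 ⟨j, Finset.mem_univ j, rfl⟩
      have e3 := norm_sub_le a (z j)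
      linarith
    have h := core (A := Real.log (1 + m)) halt hδ hm hG h1 h2 (fun j => by
        rw [norm_inv, ← one_div]
        exact one_div_le_one_div_of_le hδ (hzs j)) hp
      (fun k => (point ha1 (hw1 k) (hwa k).symm).2) hcon rfl rfl
    have hA : 69 / 100 ≤ Real.log (1 + m) := by
      have h0 : (2 : ℝ) ≤ 1 + m := by
        have : (1 : ℝ) ≤ m := by exact_mod_cast hm
        linarith
      have := Real.log_le_log two_pos h0
      have h3 := Real.log_two_gt_d9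
      linarith
    have hfin := numeric (norm_nonneg a) halt hδ hδ2 hA rfl h
    rw [add_comm (m : ℝ) 1] at hlarge
    linarith

end Pool.Agent.TH298.MI
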