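import Pool.Agent.TH298.MI.Data2
import Pool.Agent.TH298.MI.Final

/-!
The mean reciprocal distance inequality for isolated zeros, uniformly in `|a| ≤ r < 1`.
-/

set_option autoImplicit false

namespace Pool.Agent.TH298.MI

open Polynomial

variable {m : ℕ}

theorem C0_le {α δ : ℝ} (hα0 : 0 ≤ α) (hα : α < 1) (hδ : 0 < δ) (hδ2 : δ ≤ 2) :
    (2 + 96 / δ) / (1 - α) + 48 / δ ≤ 148 / (δ * (1 - α)) := by
  set L : ℝ := 1 - α with hL
  have hL0 : 0 < L := by linarith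
  have hL1 : L ≤ 1 := by linarith
  rw [div_add_div _ _ hL0.ne' hδ.ne', div_le_div_iff₀ (by positivity) (by positivity)]
  have e : (2 + 96 / δ) * δ = 2 * δ + 96 := by field_simp
  rw [e]
  have : (2 * δ + 96 + L * 48) ≤ 148 := by linarith
  have h0 : 0 < δ * L := by positivity
  nlinarith

/-- away from small `a` -/
theorem numeric2 {α δ A M B : ℝ} (hα0 : 0 < α) (hα : α < 1) (hδ : 0 < δ) (hδ2 : δ ≤ 2)
    (hA : 69 / 100 ≤ A) (hB0 : 0 ≤ B) (hB : B * (δ * (1 - α)) ≤ 148 * A)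
    (hbig : 6 * 10 ^ 7 * A ^ 3 ≤ M * (1 - α) ^ 4 * δ ^ 2)
    (h : α ^ 2 * M / 4 ≤ 8 * ((2 * α * B + 1) / (1 - α)) * α * B +
      α ^ 2 * (72 * A * ((2 * α * B + 1) / (1 - α) + 2 / δ) ^ 2 + B ^ 2 / 2)) :
    α * M * (1 - α) ≤ 64 * B := by
  by_contra hcon
  rw [not_le] at hcon
  set L : ℝ := 1 - α with hL
  have hL0 : 0 < L := by linarith
  have hL1 : L ≤ 1 := by linarith
  have hA0 : 0 < A := by linarith
  set K : ℝ := (2 * α * B + 1) / L with hK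
  have hK0 : 0 < K := by rw [hK]; positivity
  have hKL : K * L = 2 * α * B + 1 := by rw [hK]; field_simp
  have hD : 0 < δ ^ 2 * L ^ 4 := by positivity
  -- T
  set T : ℝ := K + 2 / δ with hT
  have hT0 : 0 < T := by positivity
  have hTb : T * (δ * L ^ 2) ≤ 302 * A := by
    have e1 : T * (δ * L ^ 2) = (K * L) * (δ * L) + 2 * L ^ 2 := by
      rw [hT]; field_simp
    rw [e1, hKL]
    have e2 : α * (B * (δ * L)) ≤ 1 * (B * (δ * L)) :=
      mul_le_mul_of_nonneg_right hα.le (by positivity)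
    have e3 : δ * L ≤ 2 := by nlinarith
    have e4 : L ^ 2 ≤ 1 := pow_le_one₀ hL0.le hL1
    have e5 : (2 * α * B + 1) * (δ * L) = 2 * (α * (B * (δ * L))) + δ * L := by ring
    rw [e5]
    linarith
  -- divide by α
  have h1 : M / 8 < 16 * B ^ 2 / L + 72 * A * T ^ 2 + B ^ 2 / 2 := by
    have e1 : 8 * K * α * B = α ^ 2 * (16 * B ^ 2 / L) + 8 * α * (B / L) := by
      rw [hK]; field_simp; ring
    have e2 : 8 * (B / L) < α * M / 8 := by
      have : 64 * (B / L) < α * M := by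
        rw [← mul_div_assoc, div_lt_iff₀ hL0]; exact hcon
      linarith
    have e3 : 8 * α * (B / L) < α ^ 2 * (M / 8) := by
      have := mul_lt_mul_of_pos_left e2 hα0
      calc 8 * α * (B / L) = α * (8 * (B / L)) := by ring
        _ < α * (α * M / 8) := this
        _ = _ := by ring
    rw [e1] at h
    have e4 : α ^ 2 * (M / 8) < α ^ 2 * (16 * B ^ 2 / L + 72 * A * T ^ 2 + B ^ 2 / 2) := by
      have e5 : α ^ 2 * M / 4 = α ^ 2 * (M / 8) + α ^ 2 * (M / 8) := by ring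
      have e6 : α ^ 2 * (16 * B ^ 2 / L + 72 * A * T ^ 2 + B ^ 2 / 2) =
        α ^ 2 * (16 * B ^ 2 / L) + α ^ 2 * (72 * A * T ^ 2 + B ^ 2 / 2) := by ring
      rw [e6]
      linarith
    exact lt_of_mul_lt_mul_left e4 (by positivity)
  have t1 : 16 * B ^ 2 / L * (δ ^ 2 * L ^ 4) ≤ 350464 * A ^ 2 := by
    have e1 : 16 * B ^ 2 / L * (δ ^ 2 * L ^ 4) = 16 * (B * (δ * L)) ^ 2 * L := by
      field_simp
    have e2 : (B * (δ * L)) ^ 2 ≤ (148 * A) ^ 2 := pow_le_pow_left₀ (by positivity) hB 2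
    rw [e1]
    calc 16 * (B * (δ * L)) ^ 2 * L ≤ 16 * (148 * A) ^ 2 * 1 := by
          refine mul_le_mul (by linarith) hL1 hL0.le (by positivity)
      _ = _ := by ring
  have t2 : 72 * A * T ^ 2 * (δ ^ 2 * L ^ 4) ≤ 6566688 * A ^ 3 := by
    have e2 : (T * (δ * L ^ 2)) ^ 2 ≤ (302 * A) ^ 2 := pow_le_pow_left₀ (by positivity) hTb 2
    calc 72 * A * T ^ 2 * (δ ^ 2 * L ^ 4) = 72 * A * (T * (δ * L ^ 2)) ^ 2 := by ring
      _ ≤ 72 * A * (302 * A) ^ 2 := mul_le_mul_of_nonneg_left e2 (by positivity)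
      _ = _ := by ring
  have t3 : B ^ 2 / 2 * (δ ^ 2 * L ^ 4) ≤ 10952 * A ^ 2 := by
    have e2 : (B * (δ * L)) ^ 2 ≤ (148 * A) ^ 2 := pow_le_pow_left₀ (by positivity) hB 2
    have e4 : L ^ 2 ≤ 1 := pow_le_one₀ hL0.le hL1
    calc B ^ 2 / 2 * (δ ^ 2 * L ^ 4) = (B * (δ * L)) ^ 2 / 2 * L ^ 2 := by ring
      _ ≤ (148 * A) ^ 2 / 2 * 1 := by
          refine mul_le_mul (by linarith) e4 (by positivity) (by positivity)
      _ = _ := by ring
  have h2 := mul_lt_mul_of_pos_right h1 hD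
  have e6 : M / 8 * (δ ^ 2 * L ^ 4) = M * L ^ 4 * δ ^ 2 / 8 := by ring
  have e7 : (16 * B ^ 2 / L + 72 * A * T ^ 2 + B ^ 2 / 2) * (δ ^ 2 * L ^ 4) =
      16 * B ^ 2 / L * (δ ^ 2 * L ^ 4) + 72 * A * T ^ 2 * (δ ^ 2 * L ^ 4) +
        B ^ 2 / 2 * (δ ^ 2 * L ^ 4) := by ring
  rw [e6, e7] at h2
  have h6 : A ^ 2 * (69 / 100) ≤ A ^ 3 := by
    have : A ^ 3 = A ^ 2 * A := by ring
    rw [this]; exact mul_le_mul_of_nonneg_left hA (by positivity)
  have h7 : 0 < A ^ 3 := by positivity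
  linarith

/-- small `a`: sizes -/
theorem small_sizes {α δ A M B : ℝ} (hα0 : 0 ≤ α) (hα : α < 1) (hδ : 0 < δ) (hδ2 : δ ≤ 2)
    (hA : 6 ≤ A) (hB : B * (δ * (1 - α)) ≤ 148 * A)
    (hbig : 6 * 10 ^ 7 * A ^ 3 ≤ M * (1 - α) ^ 4 * δ ^ 2)
    (h : α * M * (1 - α) ≤ 64 * B) : 2 * α ≤ δ ∧ α ≤ 1 / 5 := by
  set L : ℝ := 1 - α with hL
  have hL0 : 0 < L := by linarith
  have hL1 : L ≤ 1 := by linarith
  have hδL : 0 < δ * L := by positivity
  have h1 : α * M * L * (δ * L) ≤ 9472 * A := by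
    have := mul_le_mul_of_nonneg_right h hδL.le
    nlinarith
  have h2 : α * (6 * 10 ^ 7 * A ^ 3) ≤ 9472 * A * (δ * L ^ 2) := by
    calc α * (6 * 10 ^ 7 * A ^ 3) ≤ α * (M * L ^ 4 * δ ^ 2) :=
          mul_le_mul_of_nonneg_left hbig hα0
      _ = α * M * L * (δ * L) * (δ * L ^ 2) := by ring
      _ ≤ _ := mul_le_mul_of_nonneg_right h1 (by positivity)
  have h3 : 9472 * A * (δ * L ^ 2) ≤ 9472 * A * δ := by
    have e4 : L ^ 2 ≤ 1 := pow_le_one₀ hL0.le hL1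
    have : δ * L ^ 2 ≤ δ * 1 := mul_le_mul_of_nonneg_left e4 hδ.le
    nlinarith
  have h4 : α * (6 * 10 ^ 7 * A ^ 2) ≤ 9472 * δ := by
    have hA0 : 0 < A := by linarith
    have : A * (α * (6 * 10 ^ 7 * A ^ 2)) ≤ A * (9472 * δ) := by nlinarith
    exact le_of_mul_le_mul_left this hA0
  have h5 : (36 : ℝ) ≤ A ^ 2 := by nlinarith
  have h6 : α * (6 * 10 ^ 7 * 36) ≤ α * (6 * 10 ^ 7 * A ^ 2) :=
    mul_le_mul_of_nonneg_left (by linarith) hα0
  constructor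
  · linarith
  · linarith

/-- small `a`: contradiction -/
theorem small_false {α δ A M B : ℝ} (hα0 : 0 ≤ α) (hα : α < 1) (hδ : 0 < δ)
    (hA : 6 ≤ A) (hM : 0 ≤ M) (hB0 : 0 ≤ B) (hB : B * (δ * (1 - α)) ≤ 148 * A)
    (hbig : 6 * 10 ^ 7 * A ^ 3 ≤ M * (1 - α) ^ 4 * δ ^ 2)
    (h : α * M * (1 - α) ≤ 64 * B) (h2 : A ≤ α * B + 10 * α ^ 2 * M) : False := by
  set L : ℝ := 1 - α with hL
  have hL0 : 0 < L := by linarith
  have hL1 : L ≤ 1 := by linarith
  have hA0 : 0 < A := by linarith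
  set q : ℝ := α * M * L with hq
  have hq0 : 0 ≤ q := by positivity
  have h3 : A * M * L ^ 2 ≤ q * B * L + 10 * q ^ 2 := by
    have := mul_le_mul_of_nonneg_right h2 (by positivity : 0 ≤ M * L ^ 2)
    calc A * M * L ^ 2 = A * (M * L ^ 2) := by ring
      _ ≤ _ := this
      _ = _ := by rw [hq]; ring
  have h4 : q * B * L ≤ 64 * B ^ 2 := by
    calc q * B * L ≤ 64 * B * B * 1 :=
          mul_le_mul (mul_le_mul_of_nonneg_right h hB0) hL1 hL0.le (by positivity)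
      _ = _ := by ring
  have h5 : q ^ 2 ≤ 4096 * B ^ 2 := by
    calc q ^ 2 ≤ (64 * B) ^ 2 := pow_le_pow_left₀ hq0 h 2
      _ = _ := by ring
  have h6 : A * M * L ^ 2 ≤ 41024 * B ^ 2 := by linarith
  have h7 : A * M * L ^ 2 * (δ * L) ^ 2 ≤ 41024 * (148 * A) ^ 2 := by
    calc A * M * L ^ 2 * (δ * L) ^ 2 ≤ 41024 * B ^ 2 * (δ * L) ^ 2 :=
          mul_le_mul_of_nonneg_right h6 (by positivity)
      _ = 41024 * (B * (δ * L)) ^ 2 := by ring
      _ ≤ _ := by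
        have := pow_le_pow_left₀ (by positivity) hB 2
        linarith
  have h8 : A * (6 * 10 ^ 7 * A ^ 3) ≤ A * M * L ^ 2 * (δ * L) ^ 2 := by
    calc A * (6 * 10 ^ 7 * A ^ 3) ≤ A * (M * L ^ 4 * δ ^ 2) :=
          mul_le_mul_of_nonneg_left hbig hA0.le
      _ = _ := by ring
  have h9 : (36 : ℝ) ≤ A ^ 2 := by nlinarith
  have h10 : A ^ 2 * 36 ≤ A ^ 2 * A ^ 2 := mul_le_mul_of_nonneg_left h9 (by positivity)
  have h11 : A * (6 * 10 ^ 7 * A ^ 3) = 6 * 10 ^ 7 * (A ^ 2 * A ^ 2) := by ring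
  have h12 : 0 < A ^ 2 := by positivity
  rw [h11] at h8
  have h13 : 41024 * (148 * A) ^ 2 = 898589696 * A ^ 2 := by ring
  rw [h13] at h7
  linarith

theorem exp_six : Real.exp 6 ≤ 405 := by
  have h1 : Real.exp 6 = Real.exp 1 ^ 6 := by
    rw [← Real.exp_nat_mul]; norm_num
  rw [h1]
  have h2 := Real.exp_one_lt_d9
  have h3 : Real.exp 1 ≤ 2.72 := by linarith
  calc Real.exp 1 ^ 6 ≤ (2.72 : ℝ) ^ 6 := pow_le_pow_left₀ (Real.exp_pos _).le h3 6
    _ ≤ 405 := by norm_num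

/-- the two inequalities, for the real valued sum -/
theorem main_real2 {P : ℂ[X]} (hn : P.natDegree = m + 1) (hm : 1 ≤ m)
    (hz : ∀ z ∈ P.roots, ‖z‖ ≤ 1) {a : ℂ} (ha : a ∈ P.roots)
    (hd : P.derivative.eval a ≠ 0) {δ : ℝ} (hδ : 0 < δ) (halt : ‖a‖ < 1)
    (hsep : ∀ z ∈ P.roots.erase a, δ ≤ ‖a - z‖)
    (hlarge : 6 * 10 ^ 7 * Real.log (m + 1) ^ 3 ≤ m * (1 - ‖a‖) ^ 4 * δ ^ 2) :
    (m : ℝ) ≤ (P.derivative.roots.map fun ζ => ‖a - ζ‖⁻¹).sum := by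
  have hfirst := (main_real hn hm hz ha hd).1
  obtain ⟨z, w, hzz, hww, hwa, hw1, hza, hprod, hG⟩ := data2 hn ha hd hz
  obtain ⟨h1, h2⟩ := power_sums hG
  have ha1 : ‖a‖ ≤ 1 := hz a ha
  have hS : (P.derivative.roots.map fun ζ => ‖a - ζ‖⁻¹).sum = ∑ k, ‖(a - w k)⁻¹‖ := by
    rw [hww, Multiset.map_map]
    simp only [Function.comp_def, norm_inv]
    rfl
  have hp : ∀ k, 0 ≤ phi a (a - w k)⁻¹ := fun k => (point ha1 (hw1 k) (hwa k).symm).1
  by_contra hcon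
  rw [not_le] at hcon
  rcases (norm_nonneg a).eq_or_lt with ha0 | ha0
  · -- a = 0
    have h0 : a = 0 := norm_eq_zero.1 ha0.symm
    apply absurd hfirst
    rw [not_le]
    have e : ((P.roots.erase a).map fun z => a / (a - z)).sum = 0 := by
      rw [h0]; simp
    rw [e]
    simpa using hcon
  rw [hS] at hcon
  have hm' : (1 : ℝ) ≤ m := by exact_mod_cast hm
  have hzm : ∀ j, z j ∈ P.roots.erase a := by
    intro j; rw [hzz]; exact Multiset.mem_map.2 ⟨j, Finset.mem_univ j, rfl⟩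
  have hzs : ∀ j, δ ≤ ‖a - z j‖ := fun j => hsep (z j) (hzm j)
  have hz1 : ∀ j, ‖z j‖ ≤ 1 := fun j => hz _ (Multiset.mem_of_mem_erase (hzm j))
  have hδ2 : δ ≤ 2 := by
    have j : Fin m := ⟨0, hm⟩
    have e1 := hzs j
    have e2 := hz1 j
    have e3 := norm_sub_le a (z j)
    linarith
  obtain ⟨hV, h⟩ := core2 (A := Real.log (1 + m)) halt hδ hm hG h1 h2 (fun j => by
      rw [norm_inv, ← one_div]
      exact one_div_le_one_div_of_le hδ (hzs j)) hp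
    (fun k => (point ha1 (hw1 k) (hwa k).symm).2) hcon rfl rfl
  set A : ℝ := Real.log (1 + m) with hAdef
  rw [add_comm (m : ℝ) 1, ← hAdef] at hlarge
  have hA : 69 / 100 ≤ A := by
    have h0 : (2 : ℝ) ≤ 1 + m := by linarith
    have := Real.log_le_log two_pos h0
    have h3 := Real.log_two_gt_d9
    linarith
  have hA0 : 0 < A := by linarith
  set α : ℝ := ‖a‖ with hα
  have hL0 : 0 < 1 - α := by linarith
  set B : ℝ := ((2 + 96 / δ) / (1 - α) + 48 / δ) * A with hBdef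
  have hB0 : 0 ≤ B := by positivity
  have hB : B * (δ * (1 - α)) ≤ 148 * A := by
    have e := C0_le ha0.le halt hδ hδ2
    have h0 : 0 < δ * (1 - α) := by positivity
    rw [le_div_iff₀ h0] at e
    calc B * (δ * (1 - α)) = ((2 + 96 / δ) / (1 - α) + 48 / δ) * (δ * (1 - α)) * A := by
          rw [hBdef]; ring
      _ ≤ 148 * A := mul_le_mul_of_nonneg_right e hA0.le
  have hI := numeric2 ha0 halt hδ hδ2 hA hB0 hB hlarge h
  -- A is at least 6
  have hA6 : 6 ≤ A := by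
    have e1 : (405 : ℝ) ≤ 1 + m := by
      have e2 : m * (1 - α) ^ 4 * δ ^ 2 ≤ m * 1 * 4 := by
        have e3 : (1 - α) ^ 4 ≤ 1 := pow_le_one₀ hL0.le (by linarith)
        have e4 : δ ^ 2 ≤ 4 := by nlinarith
        refine mul_le_mul (mul_le_mul_of_nonneg_left e3 (by positivity)) e4 (by positivity)
          (by positivity)
      have e5 : (69 / 100 : ℝ) ^ 3 ≤ A ^ 3 := pow_le_pow_left₀ (by norm_num) hA 3
      norm_num at e5
      linarith
    rw [hAdef, Real.le_log_iff_exp_le (by positivity)]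
    exact exp_six.trans e1
  obtain ⟨hs1, hs2⟩ := small_sizes ha0.le halt hδ hδ2 hA6 hB hlarge hI
  -- logarithms
  have hlogu : ∑ k, Real.log ‖(a - w k)⁻¹‖ ≤ 0 := by
    have e1 : ∑ k, Real.log ‖(a - w k)⁻¹‖ ≤ ∑ k, (‖(a - w k)⁻¹‖ - 1) :=
      Finset.sum_le_sum fun k _ => Real.log_le_sub_one_of_pos
        (norm_pos_iff.2 (inv_ne_zero (sub_ne_zero.2 (hwa k).symm)))
    rw [Finset.sum_sub_distrib] at e1
    simp only [Finset.sum_const, Finset.card_univ, Fintype.card_fin, nsmul_eq_mul, mul_one] at e1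
    linarith
  have hlogv : ∑ j, Real.log ‖(a - z j)⁻¹‖ = -A + ∑ k, Real.log ‖(a - w k)⁻¹‖ := by
    have e1 := congrArg (fun x : ℂ => Real.log ‖x‖) hprod
    simp only [norm_mul, norm_prod] at e1
    have e2 : ‖((m : ℂ) + 1)‖ = 1 + m := by
      have : ((m : ℂ) + 1) = ((1 + m : ℝ) : ℂ) := by push_cast; ring
      rw [this, Complex.norm_real, Real.norm_eq_abs, abs_of_pos (by linarith)]
    rw [e2, Real.log_mul (by linarith) (Finset.prod_ne_zero_iff.2 fun k _ =>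
        norm_ne_zero_iff.2 (sub_ne_zero.2 (hwa k).symm)),
      Real.log_prod (fun k _ => norm_ne_zero_iff.2 (sub_ne_zero.2 (hwa k).symm)),
      Real.log_prod (fun k _ => norm_ne_zero_iff.2 (sub_ne_zero.2 (hza k).symm))] at e1
    simp only [norm_inv, Real.log_inv, Finset.sum_neg_distrib]
    linarith
  have hpt : -(10 * α ^ 2) * m ≤ ∑ j, Real.log ‖(a - z j)⁻¹‖ +
      (a * ∑ j, (a - z j)⁻¹).re := by
    rw [Finset.mul_sum, Complex.re_sum, ← Finset.sum_add_distrib]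
    calc -(10 * α ^ 2) * m = ∑ _j : Fin m, (-(10 * α ^ 2)) := by
          simp; ring
      _ ≤ _ := Finset.sum_le_sum fun j _ =>
        log_point hδ hs2 hs1 (hz1 j) (hza j).symm (hzs j)
  have hre : (a * ∑ j, (a - z j)⁻¹).re ≤ α * B := by
    refine (Complex.re_le_norm _).trans ?_
    rw [norm_mul]
    exact mul_le_mul_of_nonneg_left hV ha0.le
  exact small_false ha0.le halt hδ hA6 (by linarith) hB0 hB hlarge hI (by linarith)

end Pool.Agent.TH298.MI
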