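import Pool.Agent.TH298.MI.Core3
import Pool.Agent.TH298.MI.Final2

/-!
The mean reciprocal distance inequality when the zeros near `a` lie in a sector.
-/

set_option autoImplicit false

namespace Pool.Agent.TH298.MI

open Polynomial

variable {m : ℕ}

/-- away from small `a` -/
theorem numeric3 {α δ A M B : ℝ} (hα0 : 0 < α) (hα : α < 1) (hδ : 0 < δ) (hδ2 : δ ≤ 2)
    (hA : 69 / 100 ≤ A) (hB0 : 0 ≤ B) (hB : B * (δ * (1 - α)) ≤ 148 * A)
    (hbig : 6 * 10 ^ 7 * A ^ 3 ≤ M * (1 - α) ^ 4 * δ ^ 2)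
    (h : α ^ 2 * M / 4 ≤ 8 * ((2 * α * B + 1) / (1 - α)) * α * B +
      α ^ 2 * (72 * A * ((2 * α * B + 1) / (1 - α) + 2 / δ) ^ 2 + 4 * B ^ 2 / 3)) :
    α * M * (1 - α) ≤ 64 * B := by
  by_contra hcon
  rw [not_le] at hcon
  set L : ℝ := 1 - α with hL
  have hL0 : 0 < L := by linarith
  have hL1 : L ≤ 1 := by linarith
  have hA0 : 0 < A := by linarith
  set K : ℝ := (2 * α * B + 1) / L with hK
  have hK0 : 0 < K := by rw [hK]; positivity
  have hKL : K * L = 2 * α * B + 1 := by rw [hK]; field_simp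
  have hD : 0 < δ ^ 2 * L ^ 4 := by positivity
  set T : ℝ := K + 2 / δ with hT
  have hT0 : 0 < T := by positivity
  have hTb : T * (δ * L ^ 2) ≤ 302 * A := by
    have e1 : T * (δ * L ^ 2) = (K * L) * (δ * L) + 2 * L ^ 2 := by
      rw [hT]; field_simp
    rw [e1, hKL]
    have e2 : α * (B * (δ * L)) ≤ 1 * (B * (δ * L)) :=
      mul_le_mul_of_nonneg_right hα.le (by positivity)
    have e3 : δ * L ≤ 2 := by nlinarith
    have e4 : L ^ 2 ≤ 1 := pow_le_one₀ hL0.le hL1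
    have e5 : (2 * α * B + 1) * (δ * L) = 2 * (α * (B * (δ * L))) + δ * L := by ring
    rw [e5]
    linarith
  have h1 : M / 8 < 16 * B ^ 2 / L + 72 * A * T ^ 2 + 4 * B ^ 2 / 3 := by
    have e1 : 8 * K * α * B = α ^ 2 * (16 * B ^ 2 / L) + 8 * α * (B / L) := by
      rw [hK]; field_simp; ring
    have e2 : 8 * (B / L) < α * M / 8 := by
      have : 64 * (B / L) < α * M := by
        rw [← mul_div_assoc, div_lt_iff₀ hL0]; exact hcon
      linarith
    have e3 : 8 * α * (B / L) < α ^ 2 * (M / 8) := by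
      have := mul_lt_mul_of_pos_left e2 hα0
      calc 8 * α * (B / L) = α * (8 * (B / L)) := by ring
        _ < α * (α * M / 8) := this
        _ = _ := by ring
    rw [e1] at h
    have e4 : α ^ 2 * (M / 8) < α ^ 2 * (16 * B ^ 2 / L + 72 * A * T ^ 2 + 4 * B ^ 2 / 3) := by
      have e5 : α ^ 2 * M / 4 = α ^ 2 * (M / 8) + α ^ 2 * (M / 8) := by ring
      have e6 : α ^ 2 * (16 * B ^ 2 / L + 72 * A * T ^ 2 + 4 * B ^ 2 / 3) =
        α ^ 2 * (16 * B ^ 2 / L) + α ^ 2 * (72 * A * T ^ 2 + 4 * B ^ 2 / 3) := by ring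
      rw [e6]
      linarith
    exact lt_of_mul_lt_mul_left e4 (by positivity)
  have t1 : 16 * B ^ 2 / L * (δ ^ 2 * L ^ 4) ≤ 350464 * A ^ 2 := by
    have e1 : 16 * B ^ 2 / L * (δ ^ 2 * L ^ 4) = 16 * (B * (δ * L)) ^ 2 * L := by
      field_simp
    have e2 : (B * (δ * L)) ^ 2 ≤ (148 * A) ^ 2 := pow_le_pow_left₀ (by positivity) hB 2
    rw [e1]
    calc 16 * (B * (δ * L)) ^ 2 * L ≤ 16 * (148 * A) ^ 2 * 1 := by
          refine mul_le_mul (by linarith) hL1 hL0.le (by positivity)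
      _ = _ := by ring
  have t2 : 72 * A * T ^ 2 * (δ ^ 2 * L ^ 4) ≤ 6566688 * A ^ 3 := by
    have e2 : (T * (δ * L ^ 2)) ^ 2 ≤ (302 * A) ^ 2 := pow_le_pow_left₀ (by positivity) hTb 2
    calc 72 * A * T ^ 2 * (δ ^ 2 * L ^ 4) = 72 * A * (T * (δ * L ^ 2)) ^ 2 := by ring
      _ ≤ 72 * A * (302 * A) ^ 2 := mul_le_mul_of_nonneg_left e2 (by positivity)
      _ = _ := by ring
  have t3 : 4 * B ^ 2 / 3 * (δ ^ 2 * L ^ 4) ≤ 29206 * A ^ 2 := by
    have e2 : (B * (δ * L)) ^ 2 ≤ (148 * A) ^ 2 := pow_le_pow_left₀ (by positivity) hB 2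
    have e4 : L ^ 2 ≤ 1 := pow_le_one₀ hL0.le hL1
    have e5 : 0 ≤ A ^ 2 := by positivity
    calc 4 * B ^ 2 / 3 * (δ ^ 2 * L ^ 4) = 4 * (B * (δ * L)) ^ 2 / 3 * L ^ 2 := by ring
      _ ≤ 4 * (148 * A) ^ 2 / 3 * 1 := by
          refine mul_le_mul (by linarith) e4 (by positivity) (by positivity)
      _ ≤ _ := by linarith
  have h2 := mul_lt_mul_of_pos_right h1 hD
  have e6 : M / 8 * (δ ^ 2 * L ^ 4) = M * L ^ 4 * δ ^ 2 / 8 := by ring
  have e7 : (16 * B ^ 2 / L + 72 * A * T ^ 2 + 4 * B ^ 2 / 3) * (δ ^ 2 * L ^ 4) =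
      16 * B ^ 2 / L * (δ ^ 2 * L ^ 4) + 72 * A * T ^ 2 * (δ ^ 2 * L ^ 4) +
        4 * B ^ 2 / 3 * (δ ^ 2 * L ^ 4) := by ring
  rw [e6, e7] at h2
  have h6 : A ^ 2 * (69 / 100) ≤ A ^ 3 := by
    have : A ^ 3 = A ^ 2 * A := by ring
    rw [this]; exact mul_le_mul_of_nonneg_left hA (by positivity)
  have h7 : 0 < A ^ 3 := by positivity
  linarith

/-- the inequality, for the real valued sum -/
theorem main_real3 {P : ℂ[X]} (hn : P.natDegree = m + 1) (hm : 1 ≤ m)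
    (hz : ∀ z ∈ P.roots, ‖z‖ ≤ 1) {a : ℂ} (ha : a ∈ P.roots)
    (hd : P.derivative.eval a ≠ 0) {δ : ℝ} (hδ : 0 < δ) (hδ1 : δ ≤ 1 / 2) (halt : ‖a‖ < 1)
    (hsep : ∀ z ∈ P.roots.erase a, δ ≤ ‖a - z‖ ∨ |(a / (a - z)).im| ≤ (a / (a - z)).re / 2)
    (hlarge : 6 * 10 ^ 7 * (Real.log (m + 1) + (((P.roots.erase a).map fun z =>
      if δ ≤ ‖a - z‖ then 0 else Real.log (1 + δ / (2 * ‖a - z‖))).sum)) ^ 3 ≤
        m * (1 - ‖a‖) ^ 4 * δ ^ 2) :
    (m : ℝ) ≤ (P.derivative.roots.map fun ζ => ‖a - ζ‖⁻¹).sum := by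
  have hfirst := (main_real hn hm hz ha hd).1
  obtain ⟨z, w, hzz, hww, hwa, hw1, hza, hprod, hG⟩ := data2 hn ha hd hz
  obtain ⟨h1, h2⟩ := power_sums hG
  have ha1 : ‖a‖ ≤ 1 := hz a ha
  have hS : (P.derivative.roots.map fun ζ => ‖a - ζ‖⁻¹).sum = ∑ k, ‖(a - w k)⁻¹‖ := by
    rw [hww, Multiset.map_map]
    simp only [Function.comp_def, norm_inv]
    rfl
  have hp : ∀ k, 0 ≤ phi a (a - w k)⁻¹ := fun k => (point ha1 (hw1 k) (hwa k).symm).1
  by_contra hcon
  rw [not_le] at hcon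
  rcases (norm_nonneg a).eq_or_lt with ha0 | ha0
  · have h0 : a = 0 := norm_eq_zero.1 ha0.symm
    apply absurd hfirst
    rw [not_le]
    have e : ((P.roots.erase a).map fun z => a / (a - z)).sum = 0 := by
      rw [h0]; simp
    rw [e]
    simpa using hcon
  rw [hS] at hcon
  have hm' : (1 : ℝ) ≤ m := by exact_mod_cast hm
  have hzm : ∀ j, z j ∈ P.roots.erase a := by
    intro j; rw [hzz]; exact Multiset.mem_map.2 ⟨j, Finset.mem_univ j, rfl⟩
  have hz1 : ∀ j, ‖z j‖ ≤ 1 := fun j => hz _ (Multiset.mem_of_mem_erase (hzm j))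
  have hdist : ∀ j, 0 < ‖a - z j‖ := fun j => norm_pos_iff.2 (sub_ne_zero.2 (hza j).symm)
  have hiff : ∀ j, ‖(a - z j)⁻¹‖ ≤ 1 / δ ↔ δ ≤ ‖a - z j‖ := by
    intro j
    rw [norm_inv, ← one_div, one_div_le_one_div (hdist j) hδ]
  have hv : ∀ j, ‖(a - z j)⁻¹‖ ≤ 1 / δ ∨
      |(a * (a - z j)⁻¹).im| ≤ (a * (a - z j)⁻¹).re / 2 := by
    intro j
    rw [hiff]
    exact hsep (z j) (hzm j)
  -- the logarithm
  have hAeq : Real.log (m + 1) + (((P.roots.erase a).map fun z =>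
      if δ ≤ ‖a - z‖ then 0 else Real.log (1 + δ / (2 * ‖a - z‖))).sum) =
      Real.log ((1 + m) * ∏ j, (1 + (if ‖(a - z j)⁻¹‖ ≤ 1 / δ then 0
        else ‖(a - z j)⁻¹‖ * δ / 2))) := by
    have hpos : ∀ j, 0 < 1 + (if ‖(a - z j)⁻¹‖ ≤ 1 / δ then 0
        else ‖(a - z j)⁻¹‖ * δ / 2) := by
      intro j
      split_ifs
      · norm_num
      · positivity
    rw [Real.log_mul (by linarith) (Finset.prod_ne_zero_iff.2 fun j _ => (hpos j).ne'),
      Real.log_prod (fun j _ => (hpos j).ne'), hzz, Multiset.map_map, add_comm (m : ℝ) 1]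
    congr 1
    change ∑ j, _ = _
    refine Finset.sum_congr rfl fun j _ => ?_
    simp only [Function.comp_def]
    by_cases h : δ ≤ ‖a - z j‖
    · rw [if_pos h, if_pos ((hiff j).2 h)]; simp
    · rw [if_neg h, if_neg (fun h' => h ((hiff j).1 h'))]
      congr 2
      rw [norm_inv]
      have := (hdist j).ne'
      field_simp
  obtain ⟨hV, h⟩ := core3 halt hδ hm hG h1 h2 hv hp
    (fun k => (point ha1 (hw1 k) (hwa k).symm).2) hcon hAeq rfl
  set A : ℝ := Real.log (m + 1) + (((P.roots.erase a).map fun z =>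
      if δ ≤ ‖a - z‖ then 0 else Real.log (1 + δ / (2 * ‖a - z‖))).sum) with hAdef
  have hAlog : Real.log (1 + m) ≤ A := by
    rw [hAdef, add_comm (m : ℝ) 1]
    have : 0 ≤ (((P.roots.erase a).map fun z =>
      if δ ≤ ‖a - z‖ then 0 else Real.log (1 + δ / (2 * ‖a - z‖))).sum) := by
      apply Multiset.sum_nonneg
      intro x hx
      obtain ⟨y, _, rfl⟩ := Multiset.mem_map.mp hx
      split_ifs
      · exact le_rfl
      · refine Real.log_nonneg ?_
        have : 0 ≤ δ / (2 * ‖a - y‖) := by positivity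
        linarith
    linarith
  have hA : 69 / 100 ≤ A := by
    have h0 : (2 : ℝ) ≤ 1 + m := by linarith
    have := Real.log_le_log two_pos h0
    have h3 := Real.log_two_gt_d9
    linarith
  have hA0 : 0 < A := by linarith
  set α : ℝ := ‖a‖ with hα
  have hL0 : 0 < 1 - α := by linarith
  have hδ2 : δ ≤ 2 := by linarith
  set B : ℝ := ((2 + 96 / δ) / (1 - α) + 48 / δ) * A with hBdef
  have hB0 : 0 ≤ B := by positivity
  have hB : B * (δ * (1 - α)) ≤ 148 * A := by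
    have e := C0_le ha0.le halt hδ hδ2
    have h0 : 0 < δ * (1 - α) := by positivity
    rw [le_div_iff₀ h0] at e
    calc B * (δ * (1 - α)) = ((2 + 96 / δ) / (1 - α) + 48 / δ) * (δ * (1 - α)) * A := by
          rw [hBdef]; ring
      _ ≤ 148 * A := mul_le_mul_of_nonneg_right e hA0.le
  have hI := numeric3 ha0 halt hδ hδ2 hA hB0 hB hlarge h
  have hA6 : 6 ≤ Real.log (1 + m) := by
    have e1 : (405 : ℝ) ≤ 1 + m := by
      have e2 : m * (1 - α) ^ 4 * δ ^ 2 ≤ m * 1 * 4 := by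
        have e3 : (1 - α) ^ 4 ≤ 1 := pow_le_one₀ hL0.le (by linarith)
        have e4 : δ ^ 2 ≤ 4 := by nlinarith
        refine mul_le_mul (mul_le_mul_of_nonneg_left e3 (by positivity)) e4 (by positivity)
          (by positivity)
      have e5 : (69 / 100 : ℝ) ^ 3 ≤ A ^ 3 := pow_le_pow_left₀ (by norm_num) hA 3
      norm_num at e5
      linarith
    rw [Real.le_log_iff_exp_le (by positivity)]
    exact exp_six.trans e1
  obtain ⟨hs1, hs2⟩ := small_sizes ha0.le halt hδ hδ2 (hA6.trans hAlog) hB hlarge hI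
  have hlogu : ∑ k, Real.log ‖(a - w k)⁻¹‖ ≤ 0 := by
    have e1 : ∑ k, Real.log ‖(a - w k)⁻¹‖ ≤ ∑ k, (‖(a - w k)⁻¹‖ - 1) :=
      Finset.sum_le_sum fun k _ => Real.log_le_sub_one_of_pos
        (norm_pos_iff.2 (inv_ne_zero (sub_ne_zero.2 (hwa k).symm)))
    rw [Finset.sum_sub_distrib] at e1
    simp only [Finset.sum_const, Finset.card_univ, Fintype.card_fin, nsmul_eq_mul, mul_one] at e1
    linarith
  -- split the logarithm of the product over the near zeros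
  have hlogv : ∑ j, Real.log ‖(a - z j)⁻¹‖ =
      -Real.log (1 + m) + ∑ k, Real.log ‖(a - w k)⁻¹‖ := by
    have e1 := congrArg (fun x : ℂ => Real.log ‖x‖) hprod
    simp only [norm_mul, norm_prod] at e1
    have e2 : ‖((m : ℂ) + 1)‖ = 1 + m := by
      have : ((m : ℂ) + 1) = ((1 + m : ℝ) : ℂ) := by push_cast; ring
      rw [this, Complex.norm_real, Real.norm_eq_abs, abs_of_pos (by linarith)]
    rw [e2, Real.log_mul (by linarith) (Finset.prod_ne_zero_iff.2 fun k _ =>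
        norm_ne_zero_iff.2 (sub_ne_zero.2 (hwa k).symm)),
      Real.log_prod (fun k _ => norm_ne_zero_iff.2 (sub_ne_zero.2 (hwa k).symm)),
      Real.log_prod (fun k _ => norm_ne_zero_iff.2 (sub_ne_zero.2 (hza k).symm))] at e1
    simp only [norm_inv, Real.log_inv, Finset.sum_neg_distrib]
    linarith
  -- pointwise, with the gain at the near zeros
  have hpt : A - Real.log (1 + m) - 10 * α ^ 2 * m ≤ ∑ j, Real.log ‖(a - z j)⁻¹‖ +
      (a * ∑ j, (a - z j)⁻¹).re := by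
    rw [Finset.mul_sum, Complex.re_sum, ← Finset.sum_add_distrib]
    have e0 : A - Real.log (1 + m) = ∑ j, (if δ ≤ ‖a - z j‖ then 0
        else Real.log (1 + δ / (2 * ‖a - z j‖))) := by
      rw [hAdef, hzz, Multiset.map_map, add_comm (m : ℝ) 1, add_sub_cancel_left]
      rfl
    have e1 : (10 * α ^ 2 * m : ℝ) = ∑ _j : Fin m, (10 * α ^ 2) := by simp; ring
    rw [e0, e1, ← Finset.sum_sub_distrib]
    refine Finset.sum_le_sum fun j _ => ?_
    by_cases h3 : δ ≤ ‖a - z j‖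
    · rw [if_pos h3, zero_sub]
      exact log_point hδ hs2 hs1 (hz1 j) (hza j).symm h3
    · rw [if_neg h3]
      rw [not_le] at h3
      have h4 : |(a * (a - z j)⁻¹).im| ≤ (a * (a - z j)⁻¹).re / 2 :=
        (hsep (z j) (hzm j)).resolve_left (not_le.2 h3)
      have h5 : 0 ≤ (a * (a - z j)⁻¹).re := by
        have := (abs_nonneg _).trans h4
        linarith
      have h6 : Real.log (1 + δ / (2 * ‖a - z j‖)) ≤ Real.log ‖(a - z j)⁻¹‖ := by
        have h7 := hdist j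
        refine Real.log_le_log (by positivity) ?_
        rw [norm_inv, inv_eq_one_div, le_div_iff₀ h7]
        have h8 : (1 + δ / (2 * ‖a - z j‖)) * ‖a - z j‖ = ‖a - z j‖ + δ / 2 := by
          field_simp
        rw [h8]
        linarith
      have h9 : 0 ≤ 10 * α ^ 2 := by positivity
      linarith
  have hre : (a * ∑ j, (a - z j)⁻¹).re ≤ α * B := hV
  refine small_false ha0.le halt hδ (hA6.trans hAlog) (by linarith) hB0 hB hlarge hI ?_
  linarith

end Pool.Agent.TH298.MI
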