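import Pool.Agent.TH298.MI.Coef

/-!
The mean reciprocal distance inequality, from the data `u_k = 1/(a - ζ_k)`, `v_j = 1/(a - λ_j)`.
-/

set_option autoImplicit false

namespace Pool.Agent.TH298.MI

open Metric Set

variable {m : ℕ}

/-- `φ = |u| + Re (a u) - 1` -/
noncomputable def phi (a u : ℂ) : ℝ := ‖u‖ + (a * u).re - 1

/-- the pointwise inequalities for a point of the unit disc -/
theorem point {a z : ℂ} (ha : ‖a‖ ≤ 1) (hz : ‖z‖ ≤ 1) (hne : a ≠ z) :
    0 ≤ phi a (a - z)⁻¹ ∧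
      ‖a‖ ^ 2 * ‖(a - z)⁻¹‖ ^ 2 - (‖(a - z)⁻¹‖ - 1) ^ 2 ≤ 2 * phi a (a - z)⁻¹ := by
  have hd : a - z ≠ 0 := sub_ne_zero.2 hne
  set d : ℝ := ‖a - z‖ with hdd
  have hd0 : 0 < d := norm_pos_iff.2 hd
  have hv : ‖(a - z)⁻¹‖ = d⁻¹ := by rw [norm_inv]
  -- real part
  have hre : (a * (a - z)⁻¹).re = (‖a‖ ^ 2 + d ^ 2 - ‖z‖ ^ 2) / (2 * d ^ 2) := by
    have h0 : Complex.normSq (a - z) ≠ 0 := by
      rw [Ne, Complex.normSq_eq_zero]; exact hd
    have h3 : Complex.normSq z = Complex.normSq a + Complex.normSq (a - z)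
        - 2 * (a * (starRingEnd ℂ) (a - z)).re := by
      simp only [Complex.normSq_apply, Complex.mul_re, Complex.conj_re, Complex.conj_im,
        Complex.sub_re, Complex.sub_im]
      ring
    have h4 : (a * (a - z)⁻¹).re =
        (Complex.normSq (a - z))⁻¹ * (a * (starRingEnd ℂ) (a - z)).re := by
      rw [Complex.inv_def]
      have : a * ((starRingEnd ℂ) (a - z) * (((Complex.normSq (a - z))⁻¹ : ℝ) : ℂ)) =
          (((Complex.normSq (a - z))⁻¹ : ℝ) : ℂ) * (a * (starRingEnd ℂ) (a - z)) := by ring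
      rw [this, Complex.re_ofReal_mul]
    rw [h4, hdd, Complex.sq_norm, Complex.sq_norm, Complex.sq_norm, h3]
    field_simp
    ring
  have hphi : phi a (a - z)⁻¹ = (2 * d + ‖a‖ ^ 2 - ‖z‖ ^ 2 - d ^ 2) / (2 * d ^ 2) := by
    unfold phi
    rw [hv, hre]
    field_simp
    ring
  have t1 : d ≤ ‖a‖ + ‖z‖ := norm_sub_le _ _
  have t2 : ‖z‖ ≤ ‖a‖ + d := by
    have : z = a - (a - z) := by ring
    calc ‖z‖ = ‖a - (a - z)‖ := by rw [← this]
      _ ≤ _ := norm_sub_le _ _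
  have na := norm_nonneg a
  have nz := norm_nonneg z
  constructor
  · rw [hphi]
    refine div_nonneg ?_ (by positivity)
    rcases le_total (1 - d) ‖a‖ with h | h
    · rcases le_total d 1 with h1 | h1
      · nlinarith
      · nlinarith
    · nlinarith [mul_nonneg hd0.le (sub_nonneg.2 h)]
  · rw [hphi, hv]
    have e : 2 * ((2 * d + ‖a‖ ^ 2 - ‖z‖ ^ 2 - d ^ 2) / (2 * d ^ 2)) -
        (‖a‖ ^ 2 * d⁻¹ ^ 2 - (d⁻¹ - 1) ^ 2) = (1 - ‖z‖ ^ 2) * d⁻¹ ^ 2 := by
      field_simp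
      ring
    have : 0 ≤ (1 - ‖z‖ ^ 2) * d⁻¹ ^ 2 := by
      refine mul_nonneg (by nlinarith) (by positivity)
    linarith

/-- lower bound for the real part of the square -/
theorem re_sq {a u : ℂ}
    (h2 : ‖a‖ ^ 2 * ‖u‖ ^ 2 - (‖u‖ - 1) ^ 2 ≤ 2 * phi a u) :
    ‖a‖ ^ 2 * ‖u‖ ^ 2 - 4 * phi a u * ‖u‖ ≤ (a ^ 2 * u ^ 2).re := by
  have e : (a ^ 2 * u ^ 2).re = 2 * (a * u).re ^ 2 - ‖a‖ ^ 2 * ‖u‖ ^ 2 := by
    have h3 : ‖a‖ ^ 2 * ‖u‖ ^ 2 = (a * u).re ^ 2 + (a * u).im ^ 2 := by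
      rw [← mul_pow, ← norm_mul, Complex.sq_norm, Complex.normSq_apply]; ring
    have h4 : a ^ 2 * u ^ 2 = (a * u) ^ 2 := by ring
    rw [h3, h4, pow_two, Complex.mul_re]
    ring
  have hx : (a * u).re = phi a u + 1 - ‖u‖ := by unfold phi; ring
  rw [e, hx]
  nlinarith [sq_nonneg (phi a u)]

/-- the cubic polynomial in `A` that bounds everything -/
theorem core {a : ℂ} (ha : ‖a‖ < 1) {u v : Fin m → ℂ} {δ : ℝ} (hδ : 0 < δ)
    (hm : 1 ≤ m)
    (hG : ∀ w : ℂ, ∏ k, (1 - u k * w) = ∏ j, (1 - v j * w) -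
      w * ∑ j, v j * ∏ i ∈ Finset.univ.erase j, (1 - v i * w))
    (h1 : ∑ k, u k = 2 * ∑ j, v j)
    (h2 : ∑ k, u k ^ 2 = 3 * ∑ j, v j ^ 2 + (∑ j, v j) ^ 2)
    (hv : ∀ j, ‖v j‖ ≤ 1 / δ)
    (hp : ∀ k, 0 ≤ phi a (u k))
    (hq : ∀ k, ‖a‖ ^ 2 * ‖u k‖ ^ 2 - (‖u k‖ - 1) ^ 2 ≤ 2 * phi a (u k))
    (hS : ∑ k, ‖u k‖ < m) {A C0 : ℝ} (hA : A = Real.log (1 + m))
    (hC0 : C0 = (2 + 96 / δ) / (1 - ‖a‖) + 48 / δ) :
    ‖a‖ ^ 2 * m / 4 ≤ 8 * ((2 * C0 * A + 1) / (1 - ‖a‖)) * (C0 * A) +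
      72 * A * ((2 * C0 * A + 1) / (1 - ‖a‖) + 2 / δ) ^ 2 + (C0 * A) ^ 2 / 2 := by
  set α : ℝ := ‖a‖ with hα
  have hα0 : 0 ≤ α := norm_nonneg a
  have hα1 : 0 < 1 - α := by linarith
  have hm' : (1 : ℝ) ≤ m := by exact_mod_cast hm
  have hApos : 0 < A := by rw [hA]; exact Real.log_pos (by linarith)
  have hexpA : Real.exp A = 1 + m := by rw [hA]; exact Real.exp_log (by linarith)
  set V : ℂ := ∑ j, v j with hV
  -- bound of the quotient on small circles
  have hGb : ∀ R : ℝ, 0 < R → R / δ ≤ 1 / 2 → ∀ w : ℂ, ‖w‖ = R →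
      ‖∏ k, (1 - u k * w)‖ ≤ (1 + m) * ‖∏ j, (1 - v j * w)‖ := by
    intro R hR hRδ w hw
    have hvR : ∀ j, ‖v j‖ * R ≤ 1 / 2 := by
      intro j
      calc ‖v j‖ * R ≤ 1 / δ * R := mul_le_mul_of_nonneg_right (hv j) hR.le
        _ = R / δ := by ring
        _ ≤ _ := hRδ
    have hne : ∀ j, 1 - v j * w ≠ 0 := fun j => ne_zero_half (hvR j) hw.le
    have e : ∏ k, (1 - u k * w) = (∏ j, (1 - v j * w)) * (1 - ∑ j, v j * w / (1 - v j * w)) := by
      rw [hG w, mul_sub, mul_one, Finset.mul_sum, Finset.mul_sum]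
      congr 1
      refine Finset.sum_congr rfl fun j _ => ?_
      rw [← Finset.mul_prod_erase Finset.univ _ (Finset.mem_univ j)]
      have h7 : v j * w / (1 - v j * w) * (1 - v j * w) = v j * w := div_mul_cancel₀ _ (hne j)
      linear_combination (-∏ x ∈ Finset.univ.erase j, (1 - v x * w)) * h7
    rw [e, norm_mul, mul_comm]
    refine mul_le_mul_of_nonneg_right ?_ (norm_nonneg _)
    refine (norm_sub_le _ _).trans ?_
    rw [norm_one]
    refine add_le_add le_rfl ?_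
    refine (norm_sum_le _ _).trans ?_
    calc ∑ j, ‖v j * w / (1 - v j * w)‖ ≤ ∑ _j : Fin m, (1 : ℝ) := by
          refine Finset.sum_le_sum fun j _ => ?_
          have e1 : ‖v j * w‖ ≤ 1 / 2 := by rw [norm_mul, hw]; exact hvR j
          have e2 : 1 / 2 ≤ ‖1 - v j * w‖ := by
            have := norm_sub_norm_le (1 : ℂ) (v j * w)
            rw [norm_one] at this
            linarith
          rw [norm_div, div_le_one (by linarith)]
          linarith
      _ = m := by simp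
  -- the total defect
  set Φ : ℝ := ∑ k, phi a (u k) with hΦ
  have hΦe : Φ = ∑ k, ‖u k‖ + 2 * (a * V).re - m := by
    rw [hΦ]
    unfold phi
    rw [Finset.sum_sub_distrib, Finset.sum_add_distrib]
    have : ∑ k, (a * u k).re = 2 * (a * V).re := by
      rw [← Complex.re_sum, ← Finset.mul_sum, h1]
      have : a * (2 * V) = (2 : ℝ) * (a * V) := by push_cast; ring
      rw [this, Complex.re_ofReal_mul]
    rw [this]
    simp
  have hΦV : Φ < 2 * (a * V).re := by rw [hΦe]; linarith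
  -- first circle
  set R : ℝ := δ / 2 with hR
  have hRpos : 0 < R := by positivity
  have hRδ : R / δ = 1 / 2 := by rw [hR]; field_simp
  have hvR : ∀ j, ‖v j‖ * R ≤ 1 / 2 := by
    intro j
    calc ‖v j‖ * R ≤ 1 / δ * R := mul_le_mul_of_nonneg_right (hv j) hRpos.le
      _ = R / δ := by ring
      _ = _ := hRδ
  -- reflected coefficients
  set y : Fin m → ℝ := fun k => ‖u k‖ * R with hy
  set c : Fin m → ℂ := fun k => if 1 < y k then (((y k) ^ 2)⁻¹ : ℝ) * u k else u k with hc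
  have hcR : ∀ k, ‖c k‖ * R ≤ 1 := by
    intro k
    simp only [hc]
    split_ifs with h
    · rw [norm_mul, Complex.norm_real, Real.norm_eq_abs, abs_of_pos (by positivity), mul_assoc]
      change ((y k) ^ 2)⁻¹ * y k ≤ 1
      have h0 : 0 < y k := by linarith
      rw [pow_two, mul_inv, mul_assoc, inv_mul_cancel₀ h0.ne', mul_one]
      exact inv_le_one_of_one_le₀ h.le
    · rw [not_lt] at h; exact h
  -- logarithmic weight
  set J : ℝ := ∑ k, (if 1 < y k then Real.log (y k) else 0) with hJ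
  have hJ0 : ∀ k, 0 ≤ (if 1 < y k then Real.log (y k) else 0) := by
    intro k
    split_ifs with h
    · exact Real.log_nonneg h.le
    · exact le_rfl
  have hrefl : ∀ w : ℂ, ‖w‖ = R → ∀ k, ‖1 - u k * w‖ =
      Real.exp (if 1 < y k then Real.log (y k) else 0) * ‖1 - c k * w‖ := by
    intro w hw k
    simp only [hc]
    split_ifs with h
    · have h0 : 0 < y k := by linarith
      rw [Real.exp_log h0]
      rw [← sq_eq_sq₀ (norm_nonneg _) (by positivity), mul_pow]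
      have hw2 : Complex.normSq w = R ^ 2 := by rw [← hw, Complex.sq_norm]
      have hy2 : (y k) ^ 2 = Complex.normSq (u k) * R ^ 2 := by
        simp only [hy]; rw [mul_pow, Complex.sq_norm]
      have hu2 : Complex.normSq (u k * w) = (y k) ^ 2 := by
        rw [Complex.normSq_mul, hw2, hy2]
      set s : ℝ := (y k) ^ 2 with hs
      have hs0 : s ≠ 0 := by positivity
      have e1 : ((s⁻¹ : ℝ) : ℂ) * u k * w = ((s⁻¹ : ℝ) : ℂ) * (u k * w) := by ring
      rw [e1, Complex.sq_norm, Complex.sq_norm]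
      set p : ℂ := u k * w with hp'
      rw [Complex.normSq_apply] at hu2
      rw [Complex.normSq_apply, Complex.normSq_apply]
      simp only [Complex.sub_re, Complex.sub_im, Complex.one_re, Complex.one_im,
        Complex.re_ofReal_mul, Complex.im_ofReal_mul]
      have e2 : s * ((1 - s⁻¹ * p.re) * (1 - s⁻¹ * p.re) + (0 - s⁻¹ * p.im) * (0 - s⁻¹ * p.im)) =
          s - 2 * p.re + s⁻¹ * (p.re * p.re + p.im * p.im) := by
        field_simp
        ring
      rw [e2, hu2, inv_mul_cancel₀ hs0]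
      nlinarith [hu2]
    · rw [Real.exp_zero, one_mul]
  have hprod : ∀ w : ℂ, ‖w‖ = R → ‖∏ k, (1 - u k * w)‖ = Real.exp J * ‖∏ k, (1 - c k * w)‖ := by
    intro w hw
    rw [norm_prod, norm_prod, hJ, Real.exp_sum, ← Finset.prod_mul_distrib]
    exact Finset.prod_congr rfl fun k _ => hrefl w hw k
  have hB0 : ∀ w : ℂ, ‖w‖ = R → ‖∏ k, (1 - c k * w)‖ ≤
      Real.exp (A - J) * ‖∏ j, (1 - v j * w)‖ := by
    intro w hw
    have h := hGb R hRpos hRδ.le w hw
    rw [hprod w hw, ← hexpA] at h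
    rw [Real.exp_sub, div_mul_eq_mul_div, le_div_iff₀ (Real.exp_pos _)]
    linarith
  have hJA : J ≤ A := by
    have h := one_le_B hRpos hvR hB0
    have : 0 ≤ A - J := by
      have := Real.log_le_log one_pos h
      rwa [Real.log_one, Real.log_exp] at this
    linarith
  have hJnn : 0 ≤ J := Finset.sum_nonneg fun k _ => hJ0 k
  have hB : ∀ w : ℂ, ‖w‖ = R → ‖∏ k, (1 - c k * w)‖ ≤
      Real.exp A * ‖∏ j, (1 - v j * w)‖ := by
    intro w hw
    refine (hB0 w hw).trans (mul_le_mul_of_nonneg_right (Real.exp_le_exp.2 (by linarith))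
      (norm_nonneg _))
  have hco := (coef hRpos hApos hcR hvR hB).1
  -- the near part
  set ω : Fin m → ℝ := fun k => if 1 < y k then 1 - ((y k) ^ 2)⁻¹ else 0 with hω
  have hω0 : ∀ k, 0 ≤ ω k := by
    intro k
    simp only [hω]
    split_ifs with h
    · have : ((y k) ^ 2)⁻¹ ≤ 1 := inv_le_one_of_one_le₀ (one_le_pow₀ h.le)
      linarith
    · exact le_rfl
  have hω1 : ∀ k, ω k ≤ 1 := by
    intro k
    simp only [hω]
    split_ifs with h
    · have : 0 ≤ ((y k) ^ 2)⁻¹ := by positivity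
      linarith
    · exact zero_le_one
  have hωJ : ∑ k, ω k ≤ 2 * A := by
    refine le_trans ?_ (mul_le_mul_of_nonneg_left hJA zero_le_two)
    rw [hJ, Finset.mul_sum]
    refine Finset.sum_le_sum fun k _ => ?_
    simp only [hω]
    split_ifs with h
    · have h0 : 0 < y k := by linarith
      have h3 := Real.one_sub_inv_le_log_of_pos (x := (y k) ^ 2) (by positivity)
      rw [Real.log_pow] at h3
      push_cast at h3
      exact h3
    · simp
  have hcω : ∀ k, u k - c k = (ω k : ℂ) * u k := by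
    intro k
    simp only [hc, hω]
    split_ifs with h
    · push_cast; ring
    · simp
  set Z : ℂ := ∑ k, (ω k : ℂ) * u k with hZ
  have hZc : Z = 2 * V - ∑ k, c k := by
    rw [hZ, ← Finset.sum_congr rfl fun k _ => hcω k, Finset.sum_sub_distrib, h1]
  have hZV : ‖Z - V‖ ≤ 48 / δ * A := by
    have e : Z - V = -(∑ k, c k - ∑ j, v j) := by rw [hZc, ← hV]; ring
    rw [e, norm_neg]
    refine hco.trans (le_of_eq ?_)
    rw [hR]; field_simp; ring
  have hΦZ : ‖Z‖ + (a * Z).re - 2 * A ≤ Φ := by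
    have e1 : ‖Z‖ ≤ ∑ k, ω k * ‖u k‖ := by
      rw [hZ]
      refine (norm_sum_le _ _).trans (le_of_eq ?_)
      refine Finset.sum_congr rfl fun k _ => ?_
      rw [norm_mul, Complex.norm_real, Real.norm_eq_abs, abs_of_nonneg (hω0 k)]
    have e2 : (a * Z).re = ∑ k, ω k * (a * u k).re := by
      rw [hZ, Finset.mul_sum, Complex.re_sum]
      refine Finset.sum_congr rfl fun k _ => ?_
      have : a * ((ω k : ℂ) * u k) = (ω k : ℂ) * (a * u k) := by ring
      rw [this, Complex.re_ofReal_mul]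
    have e3 : ∑ k, ω k * phi a (u k) ≤ Φ := by
      rw [hΦ]
      refine Finset.sum_le_sum fun k _ => ?_
      exact mul_le_of_le_one_left (hp k) (hω1 k)
    have e4 : ∑ k, ω k * phi a (u k) = ∑ k, ω k * ‖u k‖ + ∑ k, ω k * (a * u k).re - ∑ k, ω k := by
      rw [← Finset.sum_add_distrib, ← Finset.sum_sub_distrib]
      refine Finset.sum_congr rfl fun k _ => ?_
      unfold phi; ring
    linarith
  -- bounds of Z and V
  have hre : ∀ x : ℂ, (a * x).re ≤ α * ‖x‖ := by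
    intro x
    refine (Complex.re_le_norm _).trans ?_
    rw [norm_mul]
  have hZb : (1 - α) * ‖Z‖ ≤ 2 * A + 2 * (48 / δ * A) := by
    have e1 : (a * V).re = (a * Z).re - (a * (Z - V)).re := by
      rw [← Complex.sub_re]; congr 1; ring
    have e2 : -(48 / δ * A) ≤ (a * (Z - V)).re := by
      have h3 := Complex.abs_re_le_norm (a * (Z - V))
      rw [norm_mul] at h3
      have h4 : ‖a‖ * ‖Z - V‖ ≤ 1 * ‖Z - V‖ := mul_le_mul_of_nonneg_right ha.le (norm_nonneg _)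
      have h5 := (abs_le.1 (h3.trans h4)).1
      linarith
    have e3 := hre Z
    linarith
  have hC0A : ‖V‖ ≤ C0 * A := by
    have e1 : ‖Z‖ ≤ (2 * A + 2 * (48 / δ * A)) / (1 - α) := by
      rw [le_div_iff₀ hα1, mul_comm]; exact hZb
    have e2 : ‖V‖ ≤ ‖Z‖ + ‖Z - V‖ := by
      calc ‖V‖ = ‖Z - (Z - V)‖ := by ring_nf
        _ ≤ _ := norm_sub_le _ _
    have e3 : C0 * A = (2 * A + 2 * (48 / δ * A)) / (1 - α) + 48 / δ * A := by
      rw [hC0]; field_simp; ring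
    rw [e3]; linarith
  have hC0nn : 0 ≤ C0 * A := (norm_nonneg V).trans hC0A
  have hΦB : Φ ≤ 2 * (C0 * A) := by
    have e1 := hre V
    have e2 : α * ‖V‖ ≤ 1 * ‖V‖ := mul_le_mul_of_nonneg_right ha.le (norm_nonneg _)
    linarith
  -- all critical points stay away
  set K : ℝ := (2 * C0 * A + 1) / (1 - α) with hK
  have hKpos : 0 < K := by rw [hK]; refine div_pos (by linarith) hα1
  have huK : ∀ k, ‖u k‖ ≤ K := by
    intro k
    have e1 : phi a (u k) ≤ Φ := by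
      rw [hΦ]
      exact Finset.single_le_sum (f := fun k => phi a (u k)) (fun k _ => hp k) (Finset.mem_univ k)
    have e2 : (1 - α) * ‖u k‖ - 1 ≤ phi a (u k) := by
      unfold phi
      have h3 := Complex.abs_re_le_norm (a * u k)
      rw [norm_mul] at h3
      have := (abs_le.1 h3).1
      linarith
    rw [hK, le_div_iff₀ hα1, mul_comm]
    linarith
  have huhalf : ∀ k, 1 / 2 ≤ ‖u k‖ := by
    intro k
    have e1 := hp k
    unfold phi at e1
    have e2 := hre (u k)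
    have e3 : α * ‖u k‖ ≤ 1 * ‖u k‖ := mul_le_mul_of_nonneg_right ha.le (norm_nonneg _)
    linarith
  -- second circle
  set T : ℝ := K + 2 / δ with hT
  have hTpos : 0 < T := by positivity
  have hT1 : 0 < 1 / T := by positivity
  have hTδ : 1 / T / δ ≤ 1 / 2 := by
    rw [div_div, div_le_div_iff₀ (by positivity) two_pos]
    have : T * δ = K * δ + 2 := by rw [hT]; field_simp
    have h0 : 0 ≤ K * δ := by positivity
    linarith
  have hGT : ∀ w : ℂ, ‖w‖ = 1 / T → ‖∏ k, (1 - u k * w)‖ ≤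
      Real.exp A * ‖∏ j, (1 - v j * w)‖ := by
    rw [hexpA]
    exact hGb (1 / T) hT1 hTδ
  have hco2 := (coef hT1 hApos (c := u) (d := v) (fun k => by
      rw [mul_one_div, div_le_one hTpos]
      have := huK k
      have h0 : 0 ≤ 2 / δ := by positivity
      linarith) (fun j => by
      calc ‖v j‖ * (1 / T) ≤ 1 / δ * (1 / T) := mul_le_mul_of_nonneg_right (hv j) hT1.le
        _ = 1 / T / δ := by ring
        _ ≤ _ := hTδ) hGT).2
  have hX : ‖∑ k, u k ^ 2‖ ≤ 72 * A * T ^ 2 + (C0 * A) ^ 2 / 2 := by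
    have e1 : ∑ k, u k ^ 2 = (3 / 2 : ℝ) * (∑ k, u k ^ 2 - ∑ j, v j ^ 2) - (1 / 2 : ℝ) * V ^ 2 := by
      have : ∑ j, v j ^ 2 = (∑ k, u k ^ 2 - V ^ 2) / 3 := by rw [h2]; ring
      rw [this]; push_cast; ring
    rw [e1]
    refine (norm_sub_le _ _).trans ?_
    rw [norm_mul, norm_mul, norm_pow, Complex.norm_real, Complex.norm_real, Real.norm_eq_abs,
      Real.norm_eq_abs, abs_of_pos (by norm_num), abs_of_pos (by norm_num)]
    have e2 : 48 * A / (1 / T) ^ 2 = 48 * A * T ^ 2 := by field_simp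
    rw [e2] at hco2
    have e3 : ‖V‖ ^ 2 ≤ (C0 * A) ^ 2 := pow_le_pow_left₀ (norm_nonneg _) hC0A 2
    linarith
  -- conclusion
  have hlow : ∀ k, α ^ 2 / 4 - 4 * K * phi a (u k) ≤ (a ^ 2 * u k ^ 2).re := by
    intro k
    refine le_trans ?_ (re_sq (hq k))
    have e1 : α ^ 2 / 4 ≤ α ^ 2 * ‖u k‖ ^ 2 := by
      have : (1 / 2 : ℝ) ^ 2 ≤ ‖u k‖ ^ 2 := pow_le_pow_left₀ (by norm_num) (huhalf k) 2
      nlinarith [sq_nonneg α]
    have e2 : phi a (u k) * ‖u k‖ ≤ phi a (u k) * K := mul_le_mul_of_nonneg_left (huK k) (hp k)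
    nlinarith
  have hsum : α ^ 2 * m / 4 - 4 * K * Φ ≤ (a ^ 2 * ∑ k, u k ^ 2).re := by
    have e5 : a ^ 2 * ∑ k, u k ^ 2 = ∑ k, a ^ 2 * u k ^ 2 := Finset.mul_sum _ _ _
    rw [e5, Complex.re_sum]
    refine le_trans (le_of_eq ?_) (Finset.sum_le_sum fun k _ => hlow k)
    rw [Finset.sum_sub_distrib, ← Finset.mul_sum]
    simp only [Finset.sum_const, Finset.card_univ, Fintype.card_fin, nsmul_eq_mul]
    ring
  have hup : (a ^ 2 * ∑ k, u k ^ 2).re ≤ 72 * A * T ^ 2 + (C0 * A) ^ 2 / 2 := by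
    refine (Complex.re_le_norm _).trans ?_
    rw [norm_mul, norm_pow]
    have : ‖a‖ ^ 2 ≤ 1 := pow_le_one₀ (norm_nonneg _) ha.le
    calc ‖a‖ ^ 2 * ‖∑ k, u k ^ 2‖ ≤ 1 * ‖∑ k, u k ^ 2‖ :=
          mul_le_mul_of_nonneg_right this (norm_nonneg _)
      _ ≤ _ := by rw [one_mul]; exact hX
  have hKΦ : 4 * K * Φ ≤ 8 * K * (C0 * A) := by
    have := mul_le_mul_of_nonneg_left hΦB (by positivity : 0 ≤ 4 * K)
    linarith
  linarith

end Pool.Agent.TH298.MI
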